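import Pool.Agent.Helper27.HFGeom

/-!
The point set, its orientation table and the path of triangulations, in terms of indices.
-/

set_option autoImplicit false

namespace Pool.Agent.Helper27.HF

def XL : List ℤ := [0, -1000, -972, -952, -940, -936, -940, -952, -972, -1000, 1, 1000, 972, 952,
  940, 936, 940, 952, 972, 1000]

def YL : List ℤ := [360, 80, 60, 40, 20, 0, -20, -40, -60, -80, -360, -80, -60, -40, -20, 0, 20,
  40, 60, 80]


  def orM : ℕ := 0x3f8001f8000f80007800038000180000800000007f8007fc007fe007ff007ff807ffc07ffe07fff07fff87fffc7fffe007ff000009f8008f80087800838008180080800800003f8003fc003fe003ff003ff803ffc03ffe03fff03fff83fffc3fffe407ff007ff00000cf800c7800c3800c1800c0800c00001f8001fc001fe001ff001ff801ffc01ffe01fff01fff81fffc1fffe607ff207ff007ff00000e7800e3800e1800e0800e00000f8000fc000fe000ff000ff800ffc00ffe00fff00fff80fffc0fffe707ff307ff107ff007ff00000f3800f1800f0800f00000780007c0007e0007f0007f8007fc007fe007ff007ff807ffc07ffe787ff387ff187ff087ff007ff00000f9800f8800f80000380003c0003e0003f0003f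8003fc003fe003ff003ff803ffc03ffe7c7ff3c7ff1c7ff0c7ff047ff007ff00000fc800fc0000180001c0001e0001f0001f8001fc001fe001ff001ff801ffc01ffe7e7ff3e7ff1e7ff0e7ff067ff027ff007ff00000fe0000080000c0000e0000f0000f8000fc000fe000ff000ff800ffc00ffe7f7ff3f7ff1f7ff0f7ff077ff037ff017ff007ff000000000000400006000070000780007c0007e0007f0007f8007fc007fe003ff803ffc03ffe03fff03fff83fffc3fffe3ffff3ff0000000000002000030000380003c0003e0003f0003f8003fc003fe001ff801ffc01ffe01fff01fff81fffc1fffe1ffff1ffff9ff00000000fe0007e0003e0001e0000e000060000200000001fe000ff800ffc00ffe00fff00fff80fffc0fffe0ffff0ffff8ffffc01000000027e0023e0021e0020e002060020200200000fe0007f8007fc007fe007ff007ff807ffc07ffe07fff07fff87fffd01ffc01000000033e0031e0030e0030600302003000007e0003f8003fc003fe003ff003ff803ffc03ffe03fff03fff83fffd81ffc81ffc01000000039e0038e0038600382003800003e0001f8001fc001fe001ff001ff801ffc01ffe01fff01fff81fffdc1ffcc1ffc41ffc0100000003ce003c6003c2003c00001e0000f8000fc000fe000ff000ff800ffc00ffe00fff00fff80fffde1ffce1ffc61ffc21ffc0100000003e6003e2003e00000e0000780007c0007e0007f0007f8007fc007fe007ff007ff807ffdf1ffcf1ffc71ffc31ffc11ffc0100000003f2003f0000060000380003c0003e0003f0003f8003fc003fe003ff003ff803ffdf9ffcf9ffc79ffc39ffc19ffc09ffc0100000003f8000020000180001c0001e0001f0001f8001fc001fe001ff001ff801ffdfdffcfdffc7dffc3dffc1dffc0dffc05ffc0100000000000000080000c0000e0000f0000f8000fc000fe000ff000ff800ffc00ffe00fff00fff80fffc0fffe0ffff0ffff8ffffc00000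

def base : List (ℕ × ℕ) := [(0, 1), (0, 19), (1, 2), (1, 3), (1, 4), (1, 5), (1, 6), (1, 7), (1,
  8), (1, 9), (2, 3), (3, 4), (4, 5), (5, 6), (6, 7), (7, 8), (8, 9), (9, 10), (10, 11), (11, 12),
  (11, 19), (12, 13), (12, 19), (13, 14), (13, 19), (14, 15), (14, 19), (15, 16), (15, 19), (16,
  17), (16, 19), (17, 18), (17, 19), (18, 19)]

def L0 : List (ℕ × ℕ) := [(1, 10), (1, 11), (1, 12), (1, 13), (1, 14), (1, 15), (1, 16), (1, 17),
  (1, 18), (1, 19), (2, 10), (3, 10), (4, 10), (5, 10), (6, 10), (7, 10), (8, 10)] ++ base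

def L1 : List (ℕ × ℕ) := [(0, 18), (1, 10), (1, 12), (1, 13), (1, 14), (1, 15), (1, 16), (1, 17),
  (1, 18), (2, 10), (3, 10), (4, 10), (5, 10), (6, 10), (7, 10), (8, 10), (10, 12)] ++ base

def L2 : List (ℕ × ℕ) := [(0, 17), (0, 18), (1, 10), (1, 13), (1, 14), (1, 15), (1, 16), (1, 17),
  (2, 10), (3, 10), (4, 10), (5, 10), (6, 10), (7, 10), (8, 10), (10, 12), (10, 13)] ++ base

def L3 : List (ℕ × ℕ) := [(0, 16), (0, 17), (0, 18), (1, 10), (1, 14), (1, 15), (1, 16), (2, 10),
  (3, 10), (4, 10), (5, 10), (6, 10), (7, 10), (8, 10), (10, 12), (10, 13), (10, 14)] ++ base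

def L4 : List (ℕ × ℕ) := [(0, 15), (0, 16), (0, 17), (0, 18), (1, 10), (1, 15), (2, 10), (3, 10),
  (4, 10), (5, 10), (6, 10), (7, 10), (8, 10), (10, 12), (10, 13), (10, 14), (10, 15)] ++ base

def L5 : List (ℕ × ℕ) := [(0, 10), (0, 15), (0, 16), (0, 17), (0, 18), (1, 10), (2, 10), (3, 10),
  (4, 10), (5, 10), (6, 10), (7, 10), (8, 10), (10, 12), (10, 13), (10, 14), (10, 15)] ++ base

def L6 : List (ℕ × ℕ) := [(0, 2), (0, 10), (0, 16), (0, 17), (0, 18), (2, 10), (3, 10), (4, 10),
  (5, 10), (6, 10), (7, 10), (8, 10), (10, 12), (10, 13), (10, 14), (10, 15), (10, 16)] ++ base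

def L7 : List (ℕ × ℕ) := [(0, 2), (0, 3), (0, 10), (0, 17), (0, 18), (3, 10), (4, 10), (5, 10),
  (6, 10), (7, 10), (8, 10), (10, 12), (10, 13), (10, 14), (10, 15), (10, 16), (10, 17)] ++ base

def L8 : List (ℕ × ℕ) := [(0, 2), (0, 3), (0, 4), (0, 10), (0, 18), (4, 10), (5, 10), (6, 10),
  (7, 10), (8, 10), (10, 12), (10, 13), (10, 14), (10, 15), (10, 16), (10, 17), (10, 18)] ++ base

def L9 : List (ℕ × ℕ) := [(0, 2), (0, 3), (0, 4), (0, 5), (0, 10), (5, 10), (6, 10), (7, 10), (8,
  10), (10, 12), (10, 13), (10, 14), (10, 15), (10, 16), (10, 17), (10, 18), (10, 19)] ++ base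

def L10 : List (ℕ × ℕ) := [(0, 2), (0, 3), (0, 4), (0, 5), (5, 10), (5, 19), (6, 10), (7, 10),
  (8, 10), (10, 12), (10, 13), (10, 14), (10, 15), (10, 16), (10, 17), (10, 18), (10, 19)] ++ base

def L11 : List (ℕ × ℕ) := [(0, 2), (0, 3), (0, 4), (4, 19), (5, 19), (6, 10), (6, 19), (7, 10),
  (8, 10), (10, 12), (10, 13), (10, 14), (10, 15), (10, 16), (10, 17), (10, 18), (10, 19)] ++ base

def L12 : List (ℕ × ℕ) := [(0, 2), (0, 3), (3, 19), (4, 19), (5, 19), (6, 19), (7, 10), (7, 19),
  (8, 10), (10, 12), (10, 13), (10, 14), (10, 15), (10, 16), (10, 17), (10, 18), (10, 19)] ++ base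

def L13 : List (ℕ × ℕ) := [(0, 2), (2, 19), (3, 19), (4, 19), (5, 19), (6, 19), (7, 19), (8, 10),
  (8, 19), (10, 12), (10, 13), (10, 14), (10, 15), (10, 16), (10, 17), (10, 18), (10, 19)] ++ base

def L14 : List (ℕ × ℕ) := [(1, 19), (2, 19), (3, 19), (4, 19), (5, 19), (6, 19), (7, 19), (8,
  19), (9, 19), (10, 12), (10, 13), (10, 14), (10, 15), (10, 16), (10, 17), (10, 18), (10,
  19)] ++ base
/-- Integer coordinates. -/
def X (i : ℕ) : ℤ := XL.getD i 0

/-- Integer coordinates. -/
def Y (i : ℕ) : ℤ := YL.getD i 0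

/-- Orientation determinant of three indices. -/
def DZ (i j k : ℕ) : ℤ := (X j - X i) * (Y k - Y i) - (Y j - Y i) * (X k - X i)

/-- Orientation table lookup. -/
def orB (i j k : ℕ) : Bool := orM.testBit (400 * i + 20 * j + k)

/-- Combinatorial crossing. -/
def crossB (i j k l : ℕ) : Bool :=
  !(i == k) && !(i == l) && !(j == k) && !(j == l) &&
    (orB i j k != orB i j l) && (orB k l i != orB k l j)

/-- Combinatorial inclusion of a point in a triangle. -/
def insideB (a b c m : ℕ) : Bool :=
  !(m == a) && !(m == b) && !(m == c) &&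
    (orB a b m == orB a b c) && (orB b c m == orB a b c) && (orB c a m == orB a b c)

def rng : List ℕ := List.range 20

/-- The orientation table is correct. -/
def chkOr : Bool :=
  rng.all fun i => rng.all fun j => rng.all fun k =>
    i == j || i == k || j == k || (if orB i j k then decide (0 < DZ i j k) else decide (DZ i j k < 0))

theorem chkOr_true : chkOr = true := by decide +kernel

/-- Is a list of pairs a triangulation. -/
def chkTri (L : List (ℕ × ℕ)) : Bool :=
  (L.all fun p => decide (p.1 < p.2) && decide (p.2 < 20)) &&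
  (L.all fun p => L.all fun q => p == q || !(crossB p.1 p.2 q.1 q.2)) &&
  (rng.all fun i => rng.all fun j => !(decide (i < j)) || L.contains (i, j) ||
    L.any fun q => crossB i j q.1 q.2)

def has (L : List (ℕ × ℕ)) (i j : ℕ) : Bool := L.contains (i, j) || L.contains (j, i)

/-- The third side is present and the triangle is empty. -/
def bad (L : List (ℕ × ℕ)) (a b c : ℕ) : Bool :=
  has L b c && !(rng.any fun m => insideB a b c m)

def okPair (L : List (ℕ × ℕ)) (p q : ℕ × ℕ) : Bool :=
  p == q || ((!(p.1 == q.1) || !(bad L p.1 p.2 q.2)) && (!(p.1 == q.2) || !(bad L p.1 p.2 q.1)) &&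
    (!(p.2 == q.1) || !(bad L p.2 p.1 q.2)) && (!(p.2 == q.2) || !(bad L p.2 p.1 q.1)))

/-- Is the step from `L` to `L'` a parallel flip. -/
def chkFlip (L L' : List (ℕ × ℕ)) : Bool :=
  (L.filter fun p => !(L'.contains p)).all fun p =>
    (L.filter fun p => !(L'.contains p)).all fun q => okPair L p q

theorem chk0 : chkTri L0 = true := by decide +kernel
theorem chk1 : chkTri L1 = true := by decide +kernel
theorem chk2 : chkTri L2 = true := by decide +kernel
theorem chk3 : chkTri L3 = true := by decide +kernel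
theorem chk4 : chkTri L4 = true := by decide +kernel
theorem chk5 : chkTri L5 = true := by decide +kernel
theorem chk6 : chkTri L6 = true := by decide +kernel
theorem chk7 : chkTri L7 = true := by decide +kernel
theorem chk8 : chkTri L8 = true := by decide +kernel
theorem chk9 : chkTri L9 = true := by decide +kernel
theorem chk10 : chkTri L10 = true := by decide +kernel
theorem chk11 : chkTri L11 = true := by decide +kernel
theorem chk12 : chkTri L12 = true := by decide +kernel
theorem chk13 : chkTri L13 = true := by decide +kernel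
theorem chk14 : chkTri L14 = true := by decide +kernel

theorem flip0 : chkFlip L0 L1 = true := by decide +kernel
theorem flip1 : chkFlip L1 L2 = true := by decide +kernel
theorem flip2 : chkFlip L2 L3 = true := by decide +kernel
theorem flip3 : chkFlip L3 L4 = true := by decide +kernel
theorem flip4 : chkFlip L4 L5 = true := by decide +kernel
theorem flip5 : chkFlip L5 L6 = true := by decide +kernel
theorem flip6 : chkFlip L6 L7 = true := by decide +kernel
theorem flip7 : chkFlip L7 L8 = true := by decide +kernel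
theorem flip8 : chkFlip L8 L9 = true := by decide +kernel
theorem flip9 : chkFlip L9 L10 = true := by decide +kernel
theorem flip10 : chkFlip L10 L11 = true := by decide +kernel
theorem flip11 : chkFlip L11 L12 = true := by decide +kernel
theorem flip12 : chkFlip L12 L13 = true := by decide +kernel
theorem flip13 : chkFlip L13 L14 = true := by decide +kernel

/-- Forward fact: a chord of the left fan is protected by its two neighbours. -/
def chkFwd : Bool :=
  (List.range 7).all fun t => rng.all fun u => rng.all fun v =>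
    !(crossB u v 1 (12 + t)) || crossB u v 1 (13 + t) || crossB u v 1 (11 + t) ||
      crossB u v (12 + t) (13 + t) || crossB u v (11 + t) (12 + t)

theorem chkFwd_true : chkFwd = true := by decide +kernel

/-- Apex fact for the edges of the left chain. -/
def chkApex : Bool :=
  (List.range 8).all fun t => (List.range 10).all fun y => rng.all fun u => rng.all fun v =>
    !(crossB u v (t + 2) (10 + y)) || crossB u v (t + 1) (10 + y) || crossB u v (t + 1) (t + 2) ||
      (u == t + 1 && decide (10 ≤ v) && decide (v < 10 + y)) ||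
      (v == t + 1 && decide (10 ≤ u) && decide (u < 10 + y))

theorem chkApex_true : chkApex = true := by decide +kernel

/-- Emptiness of the triangles used. -/
def chkEmpty : Bool :=
  ((List.range 8).all fun t => (List.range 10).all fun y => rng.all fun m =>
    !(insideB (t + 1) (t + 2) (10 + y) m)) &&
  ((List.range 8).all fun t => rng.all fun m => !(insideB 1 (11 + t) (12 + t) m))

theorem chkEmpty_true : chkEmpty = true := by decide +kernel

/-- Crossings used. -/
def chkCr : Bool :=
  crossB 1 18 19 2 &&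
  ((List.range 7).all fun t => (List.range 9).all fun y =>
    crossB (t + 1) (10 + y) 19 (t + 2) && crossB (t + 2) (10 + y) 19 (t + 3))

theorem chkCr_true : chkCr = true := by decide +kernel

end Pool.Agent.Helper27.HF
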