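import Mathlib

/-!
Plane geometry with orientation determinants.
-/

set_option autoImplicit false

namespace Pool.Agent.Helper27.HF

/-- Orientation determinant. -/
def det (a b c : ℝ × ℝ) : ℝ := (b.1 - a.1) * (c.2 - a.2) - (b.2 - a.2) * (c.1 - a.1)

theorem mem_hull_pair {a b z : ℝ × ℝ} (hz : z ∈ convexHull ℝ ({a, b} : Set (ℝ × ℝ))) :
    ∃ t : ℝ, 0 ≤ t ∧ t ≤ 1 ∧ z.1 = a.1 + t * (b.1 - a.1) ∧ z.2 = a.2 + t * (b.2 - a.2) := by
  rw [convexHull_pair, segment_eq_image'] at hz
  obtain ⟨t, ⟨h0, h1⟩, rfl⟩ := hz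
  exact ⟨t, h0, h1, by simp, by simp⟩

theorem hull_pair_of {a b z : ℝ × ℝ} (t : ℝ) (h0 : 0 ≤ t) (h1 : t ≤ 1)
    (hx : z.1 = a.1 + t * (b.1 - a.1)) (hy : z.2 = a.2 + t * (b.2 - a.2)) :
    z ∈ convexHull ℝ ({a, b} : Set (ℝ × ℝ)) := by
  rw [convexHull_pair, segment_eq_image']
  refine ⟨t, ⟨h0, h1⟩, ?_⟩
  ext
  · simp [hx]
  · simp [hy]

theorem det_on_line {a b z : ℝ × ℝ} {t : ℝ} (hx : z.1 = a.1 + t * (b.1 - a.1))
    (hy : z.2 = a.2 + t * (b.2 - a.2)) : det a b z = 0 := by
  unfold det
  rw [hx, hy]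
  ring

/-- Sufficient condition for crossing. -/
theorem cross_of_det {a b c d : ℝ × ℝ} (h1 : det a b c * det a b d < 0)
    (h2 : det c d a * det c d b < 0) :
    ∃ z, z ∈ convexHull ℝ ({a, b} : Set (ℝ × ℝ)) ∧ z ∈ convexHull ℝ ({c, d} : Set (ℝ × ℝ)) ∧
      z ≠ a ∧ z ≠ b ∧ z ≠ c ∧ z ≠ d := by
  set α := det a b c with hα
  set β := det a b d with hβ
  set γ := det c d a with hγ
  set δ := det c d b with hδ
  have hK : γ - δ = β - α := by
    rw [hα, hβ, hγ, hδ]; unfold det; ring
  have hK0 : β - α ≠ 0 := by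
    intro h
    have : β = α := by linarith
    rw [this] at h1
    nlinarith [mul_self_nonneg α]
  -- parameters
  have ht : 0 < γ / (γ - δ) ∧ γ / (γ - δ) < 1 := by
    rcases lt_or_gt_of_ne (show γ ≠ 0 by rintro h; rw [h] at h2; simp at h2) with h | h
    · have hd : 0 < δ := by nlinarith
      constructor
      · exact div_pos_of_neg_of_neg h (by linarith)
      · rw [div_lt_one_of_neg (by linarith)]; linarith
    · have hd : δ < 0 := by nlinarith
      constructor
      · exact div_pos h (by linarith)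
      · rw [div_lt_one (by linarith)]; linarith
  have hu : 0 < α / (α - β) ∧ α / (α - β) < 1 := by
    rcases lt_or_gt_of_ne (show α ≠ 0 by rintro h; rw [h] at h1; simp at h1) with h | h
    · have hd : 0 < β := by nlinarith
      constructor
      · exact div_pos_of_neg_of_neg h (by linarith)
      · rw [div_lt_one_of_neg (by linarith)]; linarith
    · have hd : β < 0 := by nlinarith
      constructor
      · exact div_pos h (by linarith)
      · rw [div_lt_one (by linarith)]; linarith
  set t := γ / (γ - δ) with ht'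
  set u := α / (α - β) with hu'
  have htK : t * (β - α) = γ := by
    rw [ht', hK]; field_simp
  have huK : u * (β - α) = - α := by
    rw [hu']
    have : α - β ≠ 0 := by intro h; apply hK0; linarith
    field_simp
    ring
  let z : ℝ × ℝ := (a.1 + t * (b.1 - a.1), a.2 + t * (b.2 - a.2))
  have hzx : z.1 = c.1 + u * (d.1 - c.1) := by
    apply mul_right_cancel₀ hK0
    show (a.1 + t * (b.1 - a.1)) * (β - α) = _
    have e1 : (a.1 + t * (b.1 - a.1)) * (β - α) = a.1 * (β - α) + (t * (β - α)) * (b.1 - a.1) := by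
      ring
    have e2 : (c.1 + u * (d.1 - c.1)) * (β - α) = c.1 * (β - α) + (u * (β - α)) * (d.1 - c.1) := by
      ring
    rw [e1, e2, htK, huK, hα, hβ, hγ]
    unfold det
    ring
  have hzy : z.2 = c.2 + u * (d.2 - c.2) := by
    apply mul_right_cancel₀ hK0
    show (a.2 + t * (b.2 - a.2)) * (β - α) = _
    have e1 : (a.2 + t * (b.2 - a.2)) * (β - α) = a.2 * (β - α) + (t * (β - α)) * (b.2 - a.2) := by
      ring
    have e2 : (c.2 + u * (d.2 - c.2)) * (β - α) = c.2 * (β - α) + (u * (β - α)) * (d.2 - c.2) := by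
      ring
    rw [e1, e2, htK, huK, hα, hβ, hγ]
    unfold det
    ring
  have hab : det a b z = 0 := det_on_line rfl rfl
  have hcd : det c d z = 0 := det_on_line hzx hzy
  refine ⟨z, hull_pair_of t ht.1.le ht.2.le rfl rfl, hull_pair_of u hu.1.le hu.2.le hzx hzy,
    ?_, ?_, ?_, ?_⟩
  · intro h
    rw [h] at hcd
    rw [← hγ] at hcd
    rw [hcd] at h2
    simp at h2
  · intro h
    rw [h] at hcd
    rw [← hδ] at hcd
    rw [hcd] at h2
    simp at h2
  · intro h
    rw [h] at hab
    rw [← hα] at hab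
    rw [hab] at h1
    simp at h1
  · intro h
    rw [h] at hab
    rw [← hβ] at hab
    rw [hab] at h1
    simp at h1

theorem half_of_meet {a b c d z : ℝ × ℝ} (hz1 : z ∈ convexHull ℝ ({a, b} : Set (ℝ × ℝ)))
    (hz2 : z ∈ convexHull ℝ ({c, d} : Set (ℝ × ℝ))) (hc : z ≠ c) (hd : z ≠ d)
    (h2 : det a b d ≠ 0) : det a b c * det a b d < 0 := by
  obtain ⟨t, _, _, hx, hy⟩ := mem_hull_pair hz1
  obtain ⟨u, hu0, hu1, hx', hy'⟩ := mem_hull_pair hz2
  have hab : det a b z = 0 := det_on_line hx hy
  have e : det a b z = (1 - u) * det a b c + u * det a b d := by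
    unfold det
    rw [hx', hy']
    ring
  rw [hab] at e
  have hu0' : u ≠ 0 := by
    rintro rfl
    apply hc
    ext
    · rw [hx']; ring
    · rw [hy']; ring
  have hu1' : u ≠ 1 := by
    rintro rfl
    apply hd
    ext
    · rw [hx']; ring
    · rw [hy']; ring
  have hu : 0 < u := lt_of_le_of_ne hu0 (Ne.symm hu0')
  have hv : 0 < 1 - u := by
    have : u < 1 := lt_of_le_of_ne hu1 hu1'
    linarith
  have key : (1 - u) * (det a b c * det a b d) = - (u * det a b d ^ 2) := by
    have : (1 - u) * det a b c = - (u * det a b d) := by linarith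
    calc (1 - u) * (det a b c * det a b d) = ((1 - u) * det a b c) * det a b d := by ring
      _ = _ := by rw [this]; ring
  have hpos : 0 < u * det a b d ^ 2 := by positivity
  by_contra hcon
  push Not at hcon
  have : 0 ≤ (1 - u) * (det a b c * det a b d) := mul_nonneg hv.le hcon
  linarith

/-- Segments with a common endpoint. -/
theorem no_meet_shared {a b d z : ℝ × ℝ} (hz1 : z ∈ convexHull ℝ ({a, b} : Set (ℝ × ℝ)))
    (hz2 : z ∈ convexHull ℝ ({a, d} : Set (ℝ × ℝ))) (ha : z ≠ a) (h : det a b d ≠ 0) : False := by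
  obtain ⟨t, _, _, hx, hy⟩ := mem_hull_pair hz1
  obtain ⟨u, hu0, hu1, hx', hy'⟩ := mem_hull_pair hz2
  have hab : det a b z = 0 := det_on_line hx hy
  have e : det a b z = u * det a b d := by
    unfold det
    rw [hx', hy']
    ring
  rw [hab] at e
  have hu : u = 0 := by
    rcases mul_eq_zero.mp e.symm with h1 | h1
    · exact h1
    · exact absurd h1 h
  apply ha
  rw [hu] at hx' hy'
  ext
  · rw [hx']; ring
  · rw [hy']; ring

theorem hull_triple_sign {a b c z : ℝ × ℝ} (hz : z ∈ convexHull ℝ ({a, b, c} : Set (ℝ × ℝ)))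
    (s : ℝ) (hs : 0 ≤ s * det a b c) : 0 ≤ s * det a b z := by
  have hconv : Convex ℝ {w : ℝ × ℝ | 0 ≤ s * det a b w} := by
    intro x hx y hy p q hp hq hpq
    simp only [Set.mem_ofPred_eq] at hx hy ⊢
    have : s * det a b (p • x + q • y) = p * (s * det a b x) + q * (s * det a b y) := by
      unfold det
      simp only [Prod.fst_add, Prod.snd_add, Prod.smul_fst, Prod.smul_snd, smul_eq_mul]
      have hq' : q = 1 - p := by linarith
      rw [hq']
      ring
    rw [this]
    positivity
  have hsub : ({a, b, c} : Set (ℝ × ℝ)) ⊆ {w : ℝ × ℝ | 0 ≤ s * det a b w} := by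
    intro w hw
    simp only [Set.mem_insert_iff, Set.mem_singleton_iff] at hw
    rcases hw with rfl | rfl | rfl
    · show 0 ≤ s * det _ _ _
      simp [det]
    · show 0 ≤ s * det _ _ _
      simp only [det]
      ring_nf
      exact le_rfl
    · exact hs
  exact convexHull_min hsub hconv hz

theorem hull_triple_of {a b c z : ℝ × ℝ} (s : ℝ) (h0 : 0 < s * det a b c)
    (h1 : 0 ≤ s * det a b z) (h2 : 0 ≤ s * det b c z) (h3 : 0 ≤ s * det c a z) :
    z ∈ convexHull ℝ ({a, b, c} : Set (ℝ × ℝ)) := by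
  have hΔ : s * det a b c ≠ 0 := h0.ne'
  have hsum : s * det b c z + s * det c a z + s * det a b z = s * det a b c := by
    unfold det; ring
  have ha : a ∈ convexHull ℝ ({a, b, c} : Set (ℝ × ℝ)) := subset_convexHull ℝ _ (by simp)
  have hb : b ∈ convexHull ℝ ({a, b, c} : Set (ℝ × ℝ)) := subset_convexHull ℝ _ (by simp)
  have hc : c ∈ convexHull ℝ ({a, b, c} : Set (ℝ × ℝ)) := subset_convexHull ℝ _ (by simp)
  have key := (convex_convexHull ℝ ({a, b, c} : Set (ℝ × ℝ))).sum_mem
    (t := (Finset.univ : Finset (Fin 3)))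
    (w := ![s * det b c z / (s * det a b c), s * det c a z / (s * det a b c),
      s * det a b z / (s * det a b c)]) (z := ![a, b, c])
    (by
      intro i _
      fin_cases i
      · exact div_nonneg h2 h0.le
      · exact div_nonneg h3 h0.le
      · exact div_nonneg h1 h0.le)
    (by
      simp only [Fin.sum_univ_three, Matrix.cons_val_zero, Matrix.cons_val_one, Matrix.cons_val]
      rw [← add_div, ← add_div, hsum, div_self hΔ])
    (by
      intro i _
      fin_cases i
      · exact ha
      · exact hb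
      · exact hc)
  simp only [Fin.sum_univ_three, Matrix.cons_val_zero, Matrix.cons_val_one, Matrix.cons_val]
    at key
  have hz : z = (s * det b c z / (s * det a b c)) • a + (s * det c a z / (s * det a b c)) • b +
      (s * det a b z / (s * det a b c)) • c := by
    ext
    · simp only [Prod.fst_add, Prod.smul_fst, smul_eq_mul]
      rw [div_mul_eq_mul_div, div_mul_eq_mul_div, div_mul_eq_mul_div, ← add_div, ← add_div,
        eq_div_iff hΔ]
      unfold det
      ring
    · simp only [Prod.snd_add, Prod.smul_snd, smul_eq_mul]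
      rw [div_mul_eq_mul_div, div_mul_eq_mul_div, div_mul_eq_mul_div, ← add_div, ← add_div,
        eq_div_iff hΔ]
      unfold det
      ring
  rw [hz]
  exact key

end Pool.Agent.Helper27.HF
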