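import Pool.Agent.Helper27.KLRel

/-!
The coefficients of the inverse Kazhdan-Lusztig polynomial in rank 7 over a field with 7 elements.
-/

set_option autoImplicit false
set_option linter.unusedSectionVars false

open Polynomial Module

namespace Pool.Agent.Helper27.KL

variable {K : Type*} [Field K] [Fintype K]
variable {V : Type*} [AddCommGroup V] [Module K V] [Finite V]

/-- The inverse Kazhdan-Lusztig polynomial of the interval below `W`. -/
noncomputable def QPol (S : Set V) (W : Submodule K V) : ℤ[X] :=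
  - ∑ H ∈ GoodIn S ⊥ W, (-1) ^ (finrank K H) * Pol S H *
    C (Qc (Fintype.card K) (finrank K W - finrank K H))

theorem QPol_eq (S : Set V) (W : Submodule K V) :
    QPol S W = - ∑ N ∈ BadIn S W, ∑ H ∈ Int N W,
      C ((-1) ^ (finrank K H) * Qc (Fintype.card K) (finrank K W - finrank K H)) *
        T (finrank K N) (finrank K H) := by
  have h1 : ∑ H ∈ GoodIn S ⊥ W, (-1) ^ (finrank K H) * Pol S H *
      C (Qc (Fintype.card K) (finrank K W - finrank K H)) =
      ∑ H ∈ GoodIn S ⊥ W, ∑ N ∈ BadIn S H,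
      C ((-1) ^ (finrank K H) * Qc (Fintype.card K) (finrank K W - finrank K H)) *
        T (finrank K N) (finrank K H) := by
    apply Finset.sum_congr rfl
    intro H _
    rw [Pol, Finset.mul_sum, Finset.sum_mul]
    apply Finset.sum_congr rfl
    intro N _
    rw [C_mul, C_pow, C_neg, C_1]
    ring
  rw [QPol, h1, sum_swap S W (fun N H =>
    C ((-1) ^ (finrank K H) * Qc (Fintype.card K) (finrank K W - finrank K H)) *
        T (finrank K N) (finrank K H))]
  have h2 : ∑ H ∈ BadIn S W, ∑ N ∈ Int ⊥ H,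
      C ((-1) ^ (finrank K H) * Qc (Fintype.card K) (finrank K W - finrank K H)) *
        T (finrank K N) (finrank K H) = 0 := by
    apply Finset.sum_eq_zero
    intro H _
    rw [← Finset.mul_sum, sum_T_Int, mul_zero]
  rw [h2, sub_zero]

/-- The contribution of `N` to the coefficient of `X^i`. -/
noncomputable def R (i : ℕ) (N : Submodule K V) : ℤ :=
  ∑ H ∈ Int N ⊤, (-1) ^ (finrank K H) * Qc 7 (7 - finrank K H) *
    (T (finrank K N) (finrank K H)).coeff i

theorem coeff_QPol (hK : Fintype.card K = 7) (hV : finrank K V = 7) (S : Set V) (i : ℕ) :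
    (QPol S (⊤ : Submodule K V)).coeff i = - ∑ N ∈ BadIn S ⊤, R (K := K) i N := by
  rw [QPol_eq, coeff_neg, finsetSum_coeff]
  congr 1
  apply Finset.sum_congr rfl
  intro N _
  rw [finsetSum_coeff, R]
  apply Finset.sum_congr rfl
  intro H _
  rw [coeff_C_mul, hK, finrank_top, hV]

section

variable (hK : Fintype.card K = 7) (hV : finrank K V = 7)
include hK hV

theorem finrank_range {N H : Submodule K V} (hH : H ∈ Int N ⊤) :
    finrank K N ≤ finrank K H ∧ finrank K H ≤ 7 := by
  have hfd : FiniteDimensional K V := Module.Finite.of_finite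
  rw [mem_Int] at hH
  exact ⟨Submodule.finrank_mono hH.1, hV ▸ Submodule.finrank_le H⟩

theorem cnts (N : Submodule K V) :
    cnt N ⊤ 0 = 1 ∧ cnt N ⊤ 1 * 6 = 7 ^ (7 - finrank K N) - 1 ∧
    cnt N ⊤ 2 * 2016 = 49 ^ (7 - finrank K N) - 1 - cnt N ⊤ 1 * 48 := by
  have h1 := cnt_one (le_top : N ≤ ⊤)
  have h2 := cnt_two (le_top : N ≤ ⊤)
  rw [finrank_top, hV, hK] at h1 h2
  refine ⟨cnt_zero le_top, ?_, ?_⟩
  · norm_num at h1 ⊢
    exact h1
  · norm_num at h2 ⊢
    exact h2

theorem alt (N : Submodule K V) (hN : finrank K N < 7) :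
    ∑ H ∈ Int N ⊤, (-1 : ℤ) ^ (finrank K H - finrank K N) * Qc 7 (7 - finrank K H) = 0 := by
  have h1 := sum_alt (le_top : N ≤ ⊤) (by
    rintro rfl
    rw [finrank_top, hV] at hN
    omega)
  rw [finrank_top, hV, hK] at h1
  exact h1

theorem R_zero (i : ℕ) (hi : 1 ≤ i) (N : Submodule K V) (hN : finrank K N = 0) :
    R i N = 0 := by
  unfold R
  apply Finset.sum_eq_zero
  intro H hH
  obtain ⟨h1, h2⟩ := finrank_range hK hV hH
  rw [hN]
  generalize finrank K H = h at *
  have : (T 0 h).coeff i = 0 := by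
    unfold T
    split_ifs
    · rw [mul_comm] at *
      simp [coeff_one]
      omega
    · omega
    · simp
  rw [this, mul_zero]

/-- Auxiliary step function. -/
def step (a b c : ℤ) (j : ℕ) : ℤ := if j = 0 then a else if j = 1 then b else if j = 2 then c else 0

theorem sum_step (a b c : ℤ) (N W : Submodule K V) :
    ∑ H ∈ Int N W, step a b c (finrank K H - finrank K N) =
      cnt N W 0 * a + cnt N W 1 * b + cnt N W 2 * c := by
  rw [sum_three (step a b c) (by intro j hj; unfold step; rw [if_neg (by omega), if_neg (by omega),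
    if_neg (by omega)]) N W]
  simp [step]

theorem R_one_one (N : Submodule K V) (hN : finrank K N = 1) :
    R 1 N = 7 ^ 15 - 7 ^ 10 * 19608 := by
  have hc := cnts hK hV N
  have ha := alt hK hV N (by omega)
  have hs := sum_step hK hV (7 ^ 15) (-7 ^ 10) 0 N ⊤
  rw [hN] at hc ha hs
  have h1 : ∀ H ∈ Int N ⊤, (-1 : ℤ) ^ (finrank K H) * Qc 7 (7 - finrank K H) *
      (T (finrank K N) (finrank K H)).coeff 1 =
      (-1) * ((-1 : ℤ) ^ (finrank K H - 1) * Qc 7 (7 - finrank K H)) +
      step (7 ^ 15) (-7 ^ 10) 0 (finrank K H - 1) := by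
    intro H hH
    obtain ⟨h1, h2⟩ := finrank_range hK hV hH
    rw [hN] at h1 ⊢
    generalize finrank K H = h at *
    interval_cases h <;> simp [T, Qc, Finset.prod_range_succ, coeff_X, coeff_one, step]
  rw [R, Finset.sum_congr rfl h1, Finset.sum_add_distrib, ← Finset.mul_sum, ha, hs]
  norm_num at hc ⊢
  obtain ⟨h2, h3, h4⟩ := hc
  omega

theorem R_two_one (N : Submodule K V) (hN : finrank K N = 2) :
    R 1 N = 7 ^ 6 * 2801 := by
  have hc := cnts hK hV N
  have hs := sum_step hK hV 0 (7 ^ 6) 0 N ⊤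
  rw [hN] at hc hs
  have h1 : ∀ H ∈ Int N ⊤, (-1 : ℤ) ^ (finrank K H) * Qc 7 (7 - finrank K H) *
      (T (finrank K N) (finrank K H)).coeff 1 =
      step 0 (7 ^ 6) 0 (finrank K H - 2) := by
    intro H hH
    obtain ⟨h1, h2⟩ := finrank_range hK hV hH
    rw [hN] at h1 ⊢
    generalize finrank K H = h at *
    interval_cases h <;> simp [T, Qc, Finset.prod_range_succ, coeff_X, coeff_one, step]
  rw [R, Finset.sum_congr rfl h1, hs]
  norm_num at hc ⊢
  obtain ⟨h2, h3, h4⟩ := hc
  omega

theorem R_three_one (N : Submodule K V) (hN : finrank K N = 3) :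
    R 1 N = - (343 * 400) := by
  have hc := cnts hK hV N
  have hs := sum_step hK hV 0 (-343) 0 N ⊤
  rw [hN] at hc hs
  have h1 : ∀ H ∈ Int N ⊤, (-1 : ℤ) ^ (finrank K H) * Qc 7 (7 - finrank K H) *
      (T (finrank K N) (finrank K H)).coeff 1 =
      step 0 (-343) 0 (finrank K H - 3) := by
    intro H hH
    obtain ⟨h1, h2⟩ := finrank_range hK hV hH
    rw [hN] at h1 ⊢
    generalize finrank K H = h at *
    interval_cases h <;> simp [T, Qc, Finset.prod_range_succ, coeff_X, coeff_one, step]
  rw [R, Finset.sum_congr rfl h1, hs]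
  norm_num at hc ⊢
  obtain ⟨h2, h3, h4⟩ := hc
  omega

theorem R_one_two (N : Submodule K V) (hN : finrank K N = 1) : R 2 N = 0 := by
  unfold R
  apply Finset.sum_eq_zero
  intro H hH
  obtain ⟨h1, h2⟩ := finrank_range hK hV hH
  rw [hN] at h1 ⊢
  generalize finrank K H = h at *
  interval_cases h <;> simp [T, coeff_X, coeff_one]

theorem R_two_two (N : Submodule K V) (hN : finrank K N = 2) :
    R 2 N = - (343 * 2850) := by
  have hc := cnts hK hV N
  have ha := alt hK hV N (by omega)
  have hs := sum_step hK hV (-7 ^ 10) (7 ^ 6) (-343) N ⊤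
  rw [hN] at hc ha hs
  have h1 : ∀ H ∈ Int N ⊤, (-1 : ℤ) ^ (finrank K H) * Qc 7 (7 - finrank K H) *
      (T (finrank K N) (finrank K H)).coeff 2 =
      ((-1 : ℤ) ^ (finrank K H - 2) * Qc 7 (7 - finrank K H)) +
      step (-7 ^ 10) (7 ^ 6) (-343) (finrank K H - 2) := by
    intro H hH
    obtain ⟨h1, h2⟩ := finrank_range hK hV hH
    rw [hN] at h1 ⊢
    generalize finrank K H = h at *
    interval_cases h <;> simp [T, Qc, Finset.prod_range_succ, coeff_X, coeff_one, step]
  rw [R, Finset.sum_congr rfl h1, Finset.sum_add_distrib, ha, hs]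
  norm_num at hc ⊢
  obtain ⟨h2, h3, h4⟩ := hc
  omega

theorem R_three_two (N : Submodule K V) (hN : finrank K N = 3) :
    R 2 N = 7 * 2850 := by
  have hc := cnts hK hV N
  have hs := sum_step hK hV 0 0 7 N ⊤
  rw [hN] at hc hs
  have h1 : ∀ H ∈ Int N ⊤, (-1 : ℤ) ^ (finrank K H) * Qc 7 (7 - finrank K H) *
      (T (finrank K N) (finrank K H)).coeff 2 =
      step 0 0 7 (finrank K H - 3) := by
    intro H hH
    obtain ⟨h1, h2⟩ := finrank_range hK hV hH
    rw [hN] at h1 ⊢
    generalize finrank K H = h at *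
    interval_cases h <;> simp [T, Qc, Finset.prod_range_succ, coeff_X, coeff_one, coeff_X_pow, step]
  rw [R, Finset.sum_congr rfl h1, hs]
  norm_num at hc ⊢
  obtain ⟨h2, h3, h4⟩ := hc
  omega

theorem R_three (N : Submodule K V) (hN : finrank K N ≤ 3) :
    R 3 N = if finrank K N = 3 then -1 else 0 := by
  have hfd : FiniteDimensional K V := Module.Finite.of_finite
  unfold R
  rw [Finset.sum_eq_single ⊤]
  · rw [finrank_top, hV]
    generalize finrank K N = n at *
    interval_cases n <;> simp [T, Qc, coeff_X, coeff_one, coeff_X_pow]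
  · intro H hH hne
    obtain ⟨h1, h2⟩ := finrank_range hK hV hH
    have h3 : finrank K H ≠ 7 := by
      intro h
      apply hne
      apply Submodule.eq_top_of_finrank_eq
      rw [h, hV]
    generalize finrank K H = h at *
    generalize finrank K N = n at *
    have h4 : h ≤ 6 := by omega
    interval_cases n <;> interval_cases h <;> simp [T, coeff_X, coeff_one, coeff_X_pow]
  · intro h
    exact absurd (mem_Int.mpr ⟨le_top, le_top⟩) h

open Classical in
/-- Number of bad subspaces of dimension `n`. -/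
noncomputable def Wn (K : Type*) [Field K] [Fintype K] {V : Type*} [AddCommGroup V] [Module K V]
    [Finite V] (S : Set V) (n : ℕ) : ℤ :=
  (((BadIn S (⊤ : Submodule K V)).filter (fun N : Submodule K V => finrank K N = n)).card : ℤ)

theorem sum_bad (S : Set V) (hS : ∀ N : Submodule K V, Bad S N → finrank K N ≤ 3)
    (f : Submodule K V → ℤ) (a : ℕ → ℤ) (hf : ∀ N : Submodule K V, Bad S N →
      f N = a (finrank K N)) :
    ∑ N ∈ BadIn S ⊤, f N = Wn K S 0 * a 0 + Wn K S 1 * a 1 + Wn K S 2 * a 2 + Wn K S 3 * a 3 := by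
  classical
  have h1 : ∀ N ∈ BadIn S (⊤ : Submodule K V), f N =
      (if finrank K N = 0 then a 0 else 0) + (if finrank K N = 1 then a 1 else 0) +
      (if finrank K N = 2 then a 2 else 0) + (if finrank K N = 3 then a 3 else 0) := by
    intro N hN
    rw [mem_BadIn] at hN
    rw [hf N hN.2]
    have := hS N hN.2
    generalize finrank K N = n at *
    interval_cases n <;> simp
  rw [Finset.sum_congr rfl h1, Finset.sum_add_distrib, Finset.sum_add_distrib,
    Finset.sum_add_distrib, ← Finset.sum_filter, ← Finset.sum_filter, ← Finset.sum_filter,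
    ← Finset.sum_filter]
  simp [Wn]

theorem coeffs (S : Set V) (hS : ∀ N : Submodule K V, Bad S N → finrank K N ≤ 3) :
    (QPol S (⊤ : Submodule K V)).coeff 1 =
      Wn K S 1 * (7 ^ 10 * 2801) - Wn K S 2 * (7 ^ 6 * 2801) + Wn K S 3 * (343 * 400) ∧
    (QPol S (⊤ : Submodule K V)).coeff 2 = Wn K S 2 * (343 * 2850) - Wn K S 3 * (7 * 2850) ∧
    (QPol S (⊤ : Submodule K V)).coeff 3 = Wn K S 3 := by
  refine ⟨?_, ?_, ?_⟩
  · rw [coeff_QPol hK hV, sum_bad hK hV S hS (fun N => R 1 N) (fun n => if n = 0 then 0 else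
      if n = 1 then 7 ^ 15 - 7 ^ 10 * 19608 else if n = 2 then 7 ^ 6 * 2801 else - (343 * 400))]
    · simp
      ring
    · intro N hN
      have := hS N hN
      have h0 := R_zero hK hV 1 le_rfl N
      have h1 := R_one_one hK hV N
      have h2 := R_two_one hK hV N
      have h3 := R_three_one hK hV N
      generalize finrank K N = n at *
      interval_cases n
      · rw [h0 rfl]; simp
      · rw [h1 rfl]; simp
      · rw [h2 rfl]; simp
      · rw [h3 rfl]; simp
  · rw [coeff_QPol hK hV, sum_bad hK hV S hS (fun N => R 2 N) (fun n => if n = 0 then 0 else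
      if n = 1 then 0 else if n = 2 then - (343 * 2850) else 7 * 2850)]
    · simp
      ring
    · intro N hN
      have := hS N hN
      have h0 := R_zero hK hV 2 (by norm_num) N
      have h1 := R_one_two hK hV N
      have h2 := R_two_two hK hV N
      have h3 := R_three_two hK hV N
      generalize finrank K N = n at *
      interval_cases n
      · rw [h0 rfl]; simp
      · rw [h1 rfl]; simp
      · rw [h2 rfl]; simp
      · rw [h3 rfl]; simp
  · rw [coeff_QPol hK hV, sum_bad hK hV S hS (fun N => R 3 N) (fun n => if n = 3 then -1 else 0)]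
    · simp
    · intro N hN
      exact R_three hK hV N (hS N hN)

end

end Pool.Agent.Helper27.KL
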