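import Mathlib

/-!
Counting subspaces of a finite vector space, in polynomial form.
-/

set_option autoImplicit false
set_option linter.unusedSectionVars false

open Polynomial Module

namespace Pool.Agent.Helper27.KL

/-- `Phi q j = ∏_{l < j} (X - q^l)`. -/
noncomputable def Phi (q j : ℕ) : ℤ[X] := ∏ l ∈ Finset.range j, (X - C ((q : ℤ) ^ l))

theorem Phi_zero (q : ℕ) : Phi q 0 = 1 := by simp [Phi]

theorem Phi_eval (q j : ℕ) (x : ℤ) :
    (Phi q j).eval x = ∏ l ∈ Finset.range j, (x - (q : ℤ) ^ l) := by
  simp [Phi, eval_prod]

section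

variable {K : Type*} [Field K] [Fintype K]

/-- Number of injective linear maps from a `j`-dimensional space to `K^m`. -/
theorem card_injective {A : Type*} [AddCommGroup A] [Module K A] [Finite A] (m : ℕ) :
    (Nat.card {f : A →ₗ[K] (Fin m → K) // Function.Injective f} : ℤ) =
      (Phi (Fintype.card K) (finrank K A)).eval ((Fintype.card K : ℤ) ^ m) := by
  classical
  set q := Fintype.card K with hq
  have hfd : FiniteDimensional K A := Module.Finite.of_finite
  set j := finrank K A with hj
  let b : Basis (Fin j) K A := finBasis K A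
  have hinj : ∀ f : A →ₗ[K] (Fin m → K), Function.Injective f ↔ LinearIndependent K (f ∘ b) := by
    intro f
    constructor
    · intro hf
      exact b.linearIndependent.map' f (LinearMap.ker_eq_bot.mpr hf)
    · intro h
      have h1 : (f : A → (Fin m → K)) = (Finsupp.linearCombination K (f ∘ b)) ∘ b.repr := by
        funext a
        conv_lhs => rw [← b.linearCombination_repr a]
        simp only [Function.comp]
        rw [Finsupp.linearCombination_apply, Finsupp.linearCombination_apply, map_finsuppSum]
        simp
      rw [h1]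
      have h' : Function.Injective (Finsupp.linearCombination K (f ∘ b)) := h
      exact h'.comp b.repr.injective
  let e : {f : A →ₗ[K] (Fin m → K) // Function.Injective f} ≃
      {s : Fin j → (Fin m → K) // LinearIndependent K s} :=
    { toFun := fun f => ⟨f.1 ∘ b, (hinj f.1).mp f.2⟩
      invFun := fun s => ⟨b.constr K s.1, by
        rw [hinj]
        have : (b.constr K s.1 : A →ₗ[K] (Fin m → K)) ∘ b = s.1 := by
          funext i
          simp
        rw [this]; exact s.2⟩
      left_inv := by
        intro f
        apply Subtype.ext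
        apply b.ext
        intro i
        simp
      right_inv := by
        intro s
        apply Subtype.ext
        funext i
        simp }
  rw [Nat.card_congr e, Phi_eval]
  by_cases hjm : j ≤ m
  · have h1 := card_linearIndependent (K := K) (V := Fin m → K) (k := j) (by simpa using hjm)
    rw [h1, finrank_fin_fun, ← hq, Finset.prod_range]
    push_cast
    apply Finset.prod_congr rfl
    intro i _
    have : q ^ (i : ℕ) ≤ q ^ m := Nat.pow_le_pow_right Fintype.card_pos (by omega)
    push_cast [Nat.cast_sub this]
    rfl
  · push Not at hjm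
    have h1 : IsEmpty {s : Fin j → (Fin m → K) // LinearIndependent K s} := by
      constructor
      rintro ⟨s, hs⟩
      have := hs.fintype_card_le_finrank
      simp at this
      omega
    rw [Nat.card_of_isEmpty]
    symm
    rw [Nat.cast_zero]
    apply Finset.prod_eq_zero (Finset.mem_range.mpr hjm)
    simp

noncomputable instance fintypeSubmodule {A : Type*} [AddCommGroup A] [Module K A] [Finite A] :
    Fintype (Submodule K A) := by
  classical
  haveI : Finite (Submodule K A) := Finite.of_injective (fun N : Submodule K A => (N : Set A))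
    SetLike.coe_injective
  exact Fintype.ofFinite _

instance finiteQuot {A : Type*} [AddCommGroup A] [Module K A] [Finite A] (N : Submodule K A) :
    Finite (A ⧸ N) :=
  Finite.of_surjective _ N.mkQ_surjective

/-- Counting linear maps by their kernel. -/
theorem sum_quot_eval {A : Type*} [AddCommGroup A] [Module K A] [Finite A] (m : ℕ) :
    ∑ N : Submodule K A, (Phi (Fintype.card K) (finrank K (A ⧸ N))).eval
      ((Fintype.card K : ℤ) ^ m) = ((Fintype.card K : ℤ) ^ m) ^ (finrank K A) := by
  classical
  have hfd : FiniteDimensional K A := Module.Finite.of_finite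
  have : Finite (A →ₗ[K] (Fin m → K)) := Module.finite_of_finite K
  have : Fintype (A →ₗ[K] (Fin m → K)) := Fintype.ofFinite _
  have h1 : Fintype.card (A →ₗ[K] (Fin m → K)) = (Fintype.card K ^ m) ^ finrank K A := by
    rw [Module.card_eq_pow_finrank (K := K), finrank_linearMap, finrank_fin_fun, mul_comm,
      pow_mul]
  have h2 : (Fintype.card (A →ₗ[K] (Fin m → K)) : ℤ) =
      ∑ N : Submodule K A, (Nat.card {f : A →ₗ[K] (Fin m → K) // LinearMap.ker f = N} : ℤ) := by
    rw [← Finset.card_univ, Finset.card_eq_sum_card_fiberwise (f := fun f => LinearMap.ker f)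
      (t := Finset.univ) (by intro _ _; simp)]
    push_cast
    apply Finset.sum_congr rfl
    intro N _
    rw [Nat.card_eq_fintype_card, Fintype.card_subtype]
  have h3 : ∀ N : Submodule K A,
      (Nat.card {f : A →ₗ[K] (Fin m → K) // LinearMap.ker f = N} : ℤ) =
      (Phi (Fintype.card K) (finrank K (A ⧸ N))).eval ((Fintype.card K : ℤ) ^ m) := by
    intro N
    rw [← card_injective (K := K) (A := A ⧸ N) m]
    congr 1
    apply Nat.card_congr
    exact
      { toFun := fun f => ⟨N.liftQ f.1 (by rw [f.2]), by
          rw [← LinearMap.ker_eq_bot, Submodule.ker_liftQ_eq_bot _ _ _ (by rw [f.2])]⟩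
        invFun := fun g => ⟨g.1.comp N.mkQ, by
          rw [LinearMap.ker_comp, LinearMap.ker_eq_bot.mpr g.2]
          simp⟩
        left_inv := by
          intro f
          apply Subtype.ext
          exact N.liftQ_mkQ _ _
        right_inv := by
          intro g
          apply Subtype.ext
          apply Submodule.linearMap_qext
          exact N.liftQ_mkQ _ _ }
  rw [← Finset.sum_congr rfl (fun N _ => h3 N), ← h2, h1]
  push_cast
  ring

theorem sum_quot {A : Type*} [AddCommGroup A] [Module K A] [Finite A] :
    ∑ N : Submodule K A, Phi (Fintype.card K) (finrank K (A ⧸ N)) = X ^ (finrank K A) := by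
  classical
  apply eq_of_infinite_eval_eq
  have hq : 1 < (Fintype.card K : ℤ) := by exact_mod_cast Fintype.one_lt_card
  have hinf : (Set.range (fun m : ℕ => (Fintype.card K : ℤ) ^ m)).Infinite := by
    apply Set.infinite_range_of_injective
    exact pow_right_injective₀ (by omega) (by omega)
  apply hinf.mono
  rintro _ ⟨m, rfl⟩
  simp only [Set.mem_ofPred_eq]
  rw [eval_finsetSum, sum_quot_eval, eval_pow, eval_X]

/-- Duality: dimension and codimension are equidistributed over the subspaces. -/
theorem sum_dual {A : Type*} [AddCommGroup A] [Module K A] [Finite A]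
    {M : Type*} [AddCommMonoid M] (g : ℕ → M) :
    ∑ N : Submodule K A, g (finrank K N) = ∑ N : Submodule K A, g (finrank K (A ⧸ N)) := by
  classical
  have hfd : FiniteDimensional K A := Module.Finite.of_finite
  have : Finite (Module.Dual K A) := Module.finite_of_finite K
  let e : A ≃ₗ[K] Module.Dual K A := LinearEquiv.ofFinrankEq _ _ (by
    rw [Subspace.dual_finrank_eq])
  let f : Submodule K A ≃ Submodule K (Module.Dual K A) :=
    (Submodule.orderIsoMapComap e).toEquiv
  let f2 : Submodule K A ≃ Submodule K (Module.Dual K A) :=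
    { toFun := fun W => W.dualAnnihilator
      invFun := fun W => W.dualCoannihilator
      left_inv := fun _ => Subspace.dualAnnihilator_dualCoannihilator_eq
      right_inv := fun _ => Subspace.dualCoannihilator_dualAnnihilator_eq }
  have h1 : ∑ N : Submodule K A, g (finrank K N) =
      ∑ N : Submodule K (Module.Dual K A), g (finrank K N) := by
    apply Fintype.sum_equiv f
    intro N
    congr 1
    exact (LinearEquiv.finrank_map_eq e N).symm
  have h2 : ∑ N : Submodule K A, g (finrank K (A ⧸ N)) =
      ∑ N : Submodule K (Module.Dual K A), g (finrank K N) := by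
    apply Fintype.sum_equiv f2
    intro N
    congr 1
    have h3 := Subspace.finrank_add_finrank_dualAnnihilator_eq N
    have h4 := Submodule.finrank_quotient_add_finrank N
    have h5 : finrank K (f2 N) = finrank K (N.dualAnnihilator) := rfl
    omega
  rw [h1, h2]

theorem sum_sub {A : Type*} [AddCommGroup A] [Module K A] [Finite A] :
    ∑ N : Submodule K A, Phi (Fintype.card K) (finrank K N) = X ^ (finrank K A) := by
  rw [sum_dual (fun j => Phi (Fintype.card K) j), sum_quot]

variable {V : Type*} [AddCommGroup V] [Module K V] [Finite V]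

open Classical in
/-- The subspaces between `Y` and `W`. -/
noncomputable def Int (Y W : Submodule K V) : Finset (Submodule K V) :=
  Finset.univ.filter (fun H => Y ≤ H ∧ H ≤ W)

theorem mem_Int {Y W H : Submodule K V} : H ∈ Int Y W ↔ Y ≤ H ∧ H ≤ W := by
  simp [Int]

theorem finrank_map_mkQ {A : Type*} [AddCommGroup A] [Module K A] [Finite A]
    (Y P : Submodule K A) (h : Y ≤ P) :
    finrank K (P.map Y.mkQ) + finrank K Y = finrank K P := by
  have hfd : FiniteDimensional K A := Module.Finite.of_finite
  have h1 := LinearMap.finrank_range_add_finrank_ker (Y.mkQ.domRestrict P)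
  rw [LinearMap.range_domRestrict] at h1
  have h2 : finrank K (LinearMap.ker (Y.mkQ.domRestrict P)) = finrank K Y := by
    have : LinearMap.ker (Y.mkQ.domRestrict P) = Y.comap P.subtype := by
      ext x
      simp [LinearMap.domRestrict_apply]
    rw [this]
    exact (Submodule.comapSubtypeEquivOfLe h).finrank_eq
  omega

theorem sum_Int {M : Type*} [AddCommMonoid M] (g : ℕ → M) {Y W : Submodule K V} (hYW : Y ≤ W) :
    ∑ H ∈ Int Y W, g (finrank K H - finrank K Y) =
      ∑ N : Submodule K (W ⧸ Y.comap W.subtype), g (finrank K N) := by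
  classical
  have hfd : FiniteDimensional K V := Module.Finite.of_finite
  set Y' := Y.comap W.subtype with hY'
  have hrY : finrank K Y' = finrank K Y := (Submodule.comapSubtypeEquivOfLe hYW).finrank_eq
  apply Finset.sum_nbij' (fun H => (H.comap W.subtype).map Y'.mkQ)
    (fun N => (N.comap Y'.mkQ).map W.subtype)
  · intro H _
    exact Finset.mem_univ _
  · intro N _
    rw [mem_Int]
    constructor
    · intro y hy
      refine ⟨⟨y, hYW hy⟩, ?_, rfl⟩
      show Y'.mkQ ⟨y, hYW hy⟩ ∈ N
      have : Y'.mkQ ⟨y, hYW hy⟩ = 0 := by
        rw [Submodule.mkQ_apply, Submodule.Quotient.mk_eq_zero]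
        exact hy
      rw [this]
      exact N.zero_mem
    · exact Submodule.map_subtype_le _ _
  · intro H hH
    rw [mem_Int] at hH
    rw [Submodule.comap_map_mkQ]
    have h1 : Y' ⊔ H.comap W.subtype = H.comap W.subtype := by
      rw [sup_eq_right]
      exact Submodule.comap_mono hH.1
    rw [h1, Submodule.map_comap_subtype]
    exact inf_eq_right.mpr hH.2
  · intro N _
    rw [Submodule.comap_map_eq_of_injective (Submodule.injective_subtype W)]
    exact Submodule.map_comap_eq_of_surjective Y'.mkQ_surjective N
  · intro H hH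
    rw [mem_Int] at hH
    congr 1
    have h1 := finrank_map_mkQ Y' (H.comap W.subtype) (Submodule.comap_mono hH.1)
    have h2 : finrank K (H.comap W.subtype) = finrank K H :=
      (Submodule.comapSubtypeEquivOfLe hH.2).finrank_eq
    omega

theorem finrank_quot {Y W : Submodule K V} (hYW : Y ≤ W) :
    finrank K (W ⧸ Y.comap W.subtype) = finrank K W - finrank K Y := by
  have hfd : FiniteDimensional K V := Module.Finite.of_finite
  have hrY : finrank K (Y.comap W.subtype) = finrank K Y :=
    (Submodule.comapSubtypeEquivOfLe hYW).finrank_eq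
  have := Submodule.finrank_quotient_add_finrank (Y.comap W.subtype)
  omega

/-- Duality on intervals. -/
theorem sum_Int_dual {M : Type*} [AddCommMonoid M] (g : ℕ → M) {Y W : Submodule K V}
    (hYW : Y ≤ W) :
    ∑ H ∈ Int Y W, g (finrank K H - finrank K Y) =
      ∑ H ∈ Int Y W, g (finrank K W - finrank K H) := by
  classical
  have hfd : FiniteDimensional K V := Module.Finite.of_finite
  rw [sum_Int g hYW, sum_dual]
  have h1 : ∀ N : Submodule K (W ⧸ Y.comap W.subtype),
      g (finrank K ((W ⧸ Y.comap W.subtype) ⧸ N)) =
      (fun j => g ((finrank K W - finrank K Y) - j)) (finrank K N) := by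
    intro N
    simp only
    congr 1
    have h2 := Submodule.finrank_quotient_add_finrank N
    have h3 := finrank_quot hYW
    omega
  rw [Finset.sum_congr rfl (fun N _ => h1 N),
    ← sum_Int (fun j => g ((finrank K W - finrank K Y) - j)) hYW]
  apply Finset.sum_congr rfl
  intro H hH
  rw [mem_Int] at hH
  congr 1
  have h4 := Submodule.finrank_mono hH.1
  have h5 := Submodule.finrank_mono hH.2
  omega

/-- (**) -/
theorem sum_Phi_up {Y W : Submodule K V} (hYW : Y ≤ W) :
    ∑ H ∈ Int Y W, Phi (Fintype.card K) (finrank K H - finrank K Y) =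
      X ^ (finrank K W - finrank K Y) := by
  rw [sum_Int (fun j => Phi (Fintype.card K) j) hYW, sum_sub, finrank_quot hYW]

/-- (*) -/
theorem sum_Phi_down {Y W : Submodule K V} (hYW : Y ≤ W) :
    ∑ H ∈ Int Y W, Phi (Fintype.card K) (finrank K W - finrank K H) =
      X ^ (finrank K W - finrank K Y) := by
  rw [← sum_Int_dual (fun j => Phi (Fintype.card K) j) hYW, sum_Phi_up hYW]

/-- `q^{j choose 2}`. -/
def Qc (q j : ℕ) : ℤ := ∏ l ∈ Finset.range j, (q : ℤ) ^ l

theorem Phi_eval_zero (q j : ℕ) : (Phi q j).eval 0 = (-1) ^ j * Qc q j := by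
  rw [Phi_eval, Qc]
  simp only [zero_sub]
  rw [Finset.prod_neg, Finset.card_range]

/-- The alternating sum of `q^{codim choose 2}` vanishes. -/
theorem sum_alt {Y W : Submodule K V} (hYW : Y ≤ W) (hne : Y ≠ W) :
    ∑ H ∈ Int Y W, (-1 : ℤ) ^ (finrank K H - finrank K Y) *
      Qc (Fintype.card K) (finrank K W - finrank K H) = 0 := by
  have hfd : FiniteDimensional K V := Module.Finite.of_finite
  have h1 := congrArg (eval 0) (sum_Phi_down hYW)
  rw [eval_finsetSum, eval_pow, eval_X, zero_pow] at h1
  · have h2 : ∑ H ∈ Int Y W, (-1 : ℤ) ^ (finrank K H - finrank K Y) *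
        Qc (Fintype.card K) (finrank K W - finrank K H) =
        (-1) ^ (finrank K W - finrank K Y) * ∑ H ∈ Int Y W,
          (Phi (Fintype.card K) (finrank K W - finrank K H)).eval 0 := by
      rw [Finset.mul_sum]
      apply Finset.sum_congr rfl
      intro H hH
      rw [mem_Int] at hH
      rw [Phi_eval_zero, ← mul_assoc]
      congr 1
      have h4 := Submodule.finrank_mono hH.1
      have h5 := Submodule.finrank_mono hH.2
      have h6 : finrank K W - finrank K Y =
        (finrank K H - finrank K Y) + (finrank K W - finrank K H) := by omega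
      rw [h6, pow_add, mul_assoc, ← pow_add, ← two_mul, pow_mul]
      simp
    rw [h2, h1, mul_zero]
  · have h3 : finrank K Y < finrank K W := Submodule.finrank_lt_finrank_of_lt (lt_of_le_of_ne hYW hne)
    omega

open Classical in
/-- Number of `H` between `Y` and `W` of relative dimension `j`. -/
noncomputable def cnt (Y W : Submodule K V) (j : ℕ) : ℤ :=
  (((Int Y W).filter (fun H : Submodule K V => finrank K H - finrank K Y = j)).card : ℤ)

theorem sum_three (f : ℕ → ℤ) (hf : ∀ j, 3 ≤ j → f j = 0) (Y W : Submodule K V) :
    ∑ H ∈ Int Y W, f (finrank K H - finrank K Y) =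
      cnt Y W 0 * f 0 + cnt Y W 1 * f 1 + cnt Y W 2 * f 2 := by
  classical
  have h1 : ∀ H ∈ Int Y W, f (finrank K H - finrank K Y) =
      (if finrank K H - finrank K Y = 0 then f 0 else 0) +
      (if finrank K H - finrank K Y = 1 then f 1 else 0) +
      (if finrank K H - finrank K Y = 2 then f 2 else 0) := by
    intro H _
    rcases Nat.lt_or_ge (finrank K H - finrank K Y) 3 with h | h
    · interval_cases hh : (finrank K H - finrank K Y) <;> simp
    · rw [hf _ h, if_neg (by omega), if_neg (by omega), if_neg (by omega)]
      simp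
  rw [Finset.sum_congr rfl h1, Finset.sum_add_distrib, Finset.sum_add_distrib,
    ← Finset.sum_filter, ← Finset.sum_filter, ← Finset.sum_filter]
  simp [cnt]

theorem cnt_zero {Y W : Submodule K V} (hYW : Y ≤ W) : cnt Y W 0 = 1 := by
  have h1 := congrArg (eval 1) (sum_Phi_up hYW)
  rw [eval_finsetSum, eval_pow, eval_X, one_pow] at h1
  simp only [Phi_eval] at h1
  rw [sum_three (fun j => ∏ l ∈ Finset.range j, (1 - (Fintype.card K : ℤ) ^ l))] at h1
  · simpa [Finset.prod_range_succ] using h1
  · intro j hj
    apply Finset.prod_eq_zero (Finset.mem_range.mpr (by omega : 0 < j))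
    simp

theorem cnt_one {Y W : Submodule K V} (hYW : Y ≤ W) :
    cnt Y W 1 * ((Fintype.card K : ℤ) - 1) =
      (Fintype.card K : ℤ) ^ (finrank K W - finrank K Y) - 1 := by
  have h1 := congrArg (eval (Fintype.card K : ℤ)) (sum_Phi_up hYW)
  rw [eval_finsetSum, eval_pow, eval_X] at h1
  simp only [Phi_eval] at h1
  rw [sum_three (fun j => ∏ l ∈ Finset.range j, ((Fintype.card K : ℤ) - (Fintype.card K : ℤ) ^ l))]
    at h1
  · rw [cnt_zero hYW] at h1
    simp only [Finset.prod_range_succ, Finset.range_zero, Finset.prod_empty] at h1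
    rw [← h1]
    ring
  · intro j hj
    apply Finset.prod_eq_zero (Finset.mem_range.mpr (by omega : 1 < j))
    simp

theorem cnt_two {Y W : Submodule K V} (hYW : Y ≤ W) :
    cnt Y W 2 * (((Fintype.card K : ℤ) ^ 2 - 1) * ((Fintype.card K : ℤ) ^ 2 - Fintype.card K)) =
      ((Fintype.card K : ℤ) ^ 2) ^ (finrank K W - finrank K Y) - 1 -
      cnt Y W 1 * ((Fintype.card K : ℤ) ^ 2 - 1) := by
  have h1 := congrArg (eval ((Fintype.card K : ℤ) ^ 2)) (sum_Phi_up hYW)
  rw [eval_finsetSum, eval_pow, eval_X] at h1
  simp only [Phi_eval] at h1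
  rw [sum_three (fun j => ∏ l ∈ Finset.range j,
    ((Fintype.card K : ℤ) ^ 2 - (Fintype.card K : ℤ) ^ l))] at h1
  · rw [cnt_zero hYW] at h1
    simp only [Finset.prod_range_succ, Finset.range_zero, Finset.prod_empty] at h1
    rw [← h1]
    ring
  · intro j hj
    apply Finset.prod_eq_zero (Finset.mem_range.mpr (by omega : 2 < j))
    simp

end

end Pool.Agent.Helper27.KL
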