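import Mathlib

/-!
Inverse Kazhdan-Lusztig polynomials of matroids in the form of the text: the flats, the
characteristic polynomials (with the Moebius function of the lattice of flats), the recursion.
Bridge from pairs (P, Q) as in the frozen statement, and uniqueness.
-/

set_option autoImplicit false

open Polynomial
open Classical

namespace Pool.Agent.Helper27.KLFull

variable {n : ℕ}

/-- The lattice of flats of a matroid on `Fin n`, ordered by inclusion. -/
abbrev Flats (M : Matroid (Fin n)) : Type := {F : Finset (Fin n) // M.IsFlat (F : Set (Fin n))}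

/-- The rank of a flat. -/
noncomputable def rk (M : Matroid (Fin n)) (F : Flats M) : ℕ := (M.eRk (F.1 : Set (Fin n))).toNat

/-- The characteristic polynomial of the minor `(M|G)/F`: the sum of `μ(F,H) t^(rk G - rk H)` over
all flats `H` between `F` and `G`, `μ` the Moebius function of the lattice of flats. -/
noncomputable def chi (M : Matroid (Fin n)) (F G : Flats M) : ℤ[X] :=
  ∑ H ∈ Finset.Icc F G, C (IncidenceAlgebra.mu ℤ F H) * X ^ (rk M G - rk M H)

/-- `Q F G` is, for all flats `F ≤ G`, the inverse Kazhdan-Lusztig polynomial of the minor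
`(M|G)/F`, whose lattice of flats is the interval `[F,G]` and whose rank is `rk G - rk F`. -/
structure IsInverseKL (M : Matroid (Fin n)) (Q : Flats M → Flats M → ℤ[X]) : Prop where
  rank_zero : ∀ F, Q F F = 1
  degree : ∀ F G, F < G → 2 * (Q F G).natDegree < rk M G - rk M F
  recursion : ∀ F G, F ≤ G →
    (-1) ^ (rk M G - rk M F) * (Q F G).reflect (rk M G - rk M F) =
      ∑ H ∈ Finset.Icc F G,
        (-1) ^ (rk M H - rk M F) * Q F H * (chi M H G).reflect (rk M G - rk M H)

theorem chi_self (M : Matroid (Fin n)) (F : Flats M) : chi M F F = 1 := by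
  simp [chi]

theorem eRk_ne_top (M : Matroid (Fin n)) (F : Set (Fin n)) : M.eRk F ≠ ⊤ := by
  have h := M.eRk_le_encard F
  exact ne_top_of_le_ne_top (Set.toFinite F).encard_lt_top.ne h

theorem rk_mono {M : Matroid (Fin n)} {F G : Flats M} (h : F ≤ G) : rk M F ≤ rk M G :=
  ENat.toNat_le_toNat (M.eRk_mono (Finset.coe_subset.2 h)) (eRk_ne_top M _)

theorem rk_add {M : Matroid (Fin n)} {F H G : Flats M} (h1 : F ≤ H) (h2 : H ≤ G) :
    (rk M H - rk M F) + (rk M G - rk M H) = rk M G - rk M F := by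
  have := rk_mono h1
  have := rk_mono h2
  omega

theorem eq_zero_of_reflect {r : ℕ} {D : ℤ[X]} (hD : 2 * D.natDegree < r)
    (h : D.reflect r = D) : D = 0 := by
  ext i
  rw [coeff_zero]
  by_cases hi : D.natDegree < i
  · exact coeff_eq_zero_of_natDegree_lt hi
  · rw [← h, coeff_reflect, revAt_le (by omega)]
    exact coeff_eq_zero_of_natDegree_lt (by omega)

/-- uniqueness -/
theorem unique {M : Matroid (Fin n)} {Q Q' : Flats M → Flats M → ℤ[X]} (hQ : IsInverseKL M Q)
    (hQ' : IsInverseKL M Q') : ∀ F G, F ≤ G → Q F G = Q' F G := by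
  have key : ∀ r : ℕ, ∀ F G : Flats M, F ≤ G → rk M G - rk M F = r → Q F G = Q' F G := by
    intro r
    induction r using Nat.strong_induction_on with
    | _ r ih =>
      intro F G hFG hr
      rcases hFG.eq_or_lt with rfl | hlt
      · rw [hQ.rank_zero, hQ'.rank_zero]
      have h1 := hQ.recursion F G hFG
      have h2 := hQ'.recursion F G hFG
      have hd := hQ.degree F G hlt
      have hd' := hQ'.degree F G hlt
      rw [← Finset.Ico_insert_right hFG, Finset.sum_insert Finset.right_notMem_Ico, chi_self,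
        Nat.sub_self, reflect_one, pow_zero, mul_one] at h1 h2
      have h3 : ∑ H ∈ Finset.Ico F G,
          (-1) ^ (rk M H - rk M F) * Q F H * (chi M H G).reflect (rk M G - rk M H) =
          ∑ H ∈ Finset.Ico F G,
          (-1) ^ (rk M H - rk M F) * Q' F H * (chi M H G).reflect (rk M G - rk M H) := by
        refine Finset.sum_congr rfl fun H hH => ?_
        rw [Finset.mem_Ico] at hH
        have h4 := rk_mono hH.1
        have h5 := hQ.degree H G hH.2
        rw [ih (rk M H - rk M F) (by omega) F H hH.1 rfl]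
      rw [h3] at h1
      have h4 : (-1 : ℤ[X]) ^ (rk M G - rk M F) *
          ((Q F G - Q' F G).reflect (rk M G - rk M F) - (Q F G - Q' F G)) = 0 := by
        rw [reflect_sub]
        linear_combination h1 - h2
      have h5 := (mul_eq_zero.1 h4).resolve_left (pow_ne_zero _ (by norm_num))
      have h6 := eq_zero_of_reflect (D := Q F G - Q' F G) (r := rk M G - rk M F) (by
        have := natDegree_sub_le (Q F G) (Q' F G)
        rcases max_cases (Q F G).natDegree (Q' F G).natDegree with ⟨h, _⟩ | ⟨h, _⟩ <;> omega)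
        (sub_eq_zero.1 h5)
      exact sub_eq_zero.1 h6
  exact fun F G h => key _ F G h rfl

section matrices

variable {M : Matroid (Fin n)}

/-- supported on `F ≤ G`, with entries of degree at most `rk G - rk F` -/
structure Good (f : Matrix (Flats M) (Flats M) ℤ[X]) : Prop where
  supp : ∀ F G, ¬ F ≤ G → f F G = 0
  deg : ∀ F G, F ≤ G → (f F G).natDegree ≤ rk M G - rk M F

noncomputable def rev (f : Matrix (Flats M) (Flats M) ℤ[X]) : Matrix (Flats M) (Flats M) ℤ[X] :=
  Matrix.of fun F G => (f F G).reflect (rk M G - rk M F)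

noncomputable def sg (f : Matrix (Flats M) (Flats M) ℤ[X]) : Matrix (Flats M) (Flats M) ℤ[X] :=
  Matrix.of fun F G => (-1) ^ (rk M G - rk M F) * f F G

theorem reflect_sum {ι : Type*} (s : Finset ι) (f : ι → ℤ[X]) (k : ℕ) :
    reflect k (∑ i ∈ s, f i) = ∑ i ∈ s, reflect k (f i) := by
  induction s using Finset.induction_on with
  | empty => simp
  | insert a s ha ih => rw [Finset.sum_insert ha, Finset.sum_insert ha, reflect_add, ih]

theorem rev_mul {f g : Matrix (Flats M) (Flats M) ℤ[X]} (hf : Good f) (hg : Good g) :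
    rev (f * g) = rev f * rev g := by
  ext1 F G
  rw [rev, Matrix.of_apply, Matrix.mul_apply, Matrix.mul_apply, reflect_sum]
  refine Finset.sum_congr rfl fun H _ => ?_
  simp only [rev, Matrix.of_apply]
  by_cases h1 : F ≤ H
  · by_cases h2 : H ≤ G
    · rw [← rk_add h1 h2]
      exact reflect_mul _ _ (hf.deg F H h1) (hg.deg H G h2)
    · simp [hg.supp H G h2]
  · simp [hf.supp F H h1]

theorem sg_mul {f g : Matrix (Flats M) (Flats M) ℤ[X]} (hf : Good f) (hg : Good g) :
    sg (f * g) = sg f * sg g := by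
  ext1 F G
  rw [sg, Matrix.of_apply, Matrix.mul_apply, Matrix.mul_apply, Finset.mul_sum]
  refine Finset.sum_congr rfl fun H _ => ?_
  simp only [sg, Matrix.of_apply]
  by_cases h1 : F ≤ H
  · by_cases h2 : H ≤ G
    · rw [← rk_add h1 h2, pow_add]
      ring
    · simp [hg.supp H G h2]
  · simp [hf.supp F H h1]

theorem rev_rev (f : Matrix (Flats M) (Flats M) ℤ[X]) : rev (rev f) = f := by
  ext1 F G
  simp [rev]

theorem sg_sg (f : Matrix (Flats M) (Flats M) ℤ[X]) : sg (sg f) = f := by
  ext1 F G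
  simp only [sg, Matrix.of_apply]
  rw [← mul_assoc, ← pow_add, Even.neg_one_pow ⟨_, rfl⟩, one_mul]

theorem rev_one : rev (1 : Matrix (Flats M) (Flats M) ℤ[X]) = 1 := by
  ext1 F G
  by_cases h : F = G
  · subst h
    simp [rev]
  · simp [rev, Matrix.one_apply_ne h]

theorem sg_one : sg (1 : Matrix (Flats M) (Flats M) ℤ[X]) = 1 := by
  ext1 F G
  by_cases h : F = G
  · subst h
    simp [sg]
  · simp [sg, Matrix.one_apply_ne h]

theorem Good.rev {f : Matrix (Flats M) (Flats M) ℤ[X]} (hf : Good f) :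
    Good (KLFull.rev f) := by
  refine ⟨fun F G h => by simp [KLFull.rev, hf.supp F G h], fun F G h => ?_⟩
  have := hf.deg F G h
  exact natDegree_reflect_le.trans (max_le le_rfl this)

theorem natDegree_sign_mul (k : ℕ) (f : ℤ[X]) : ((-1) ^ k * f).natDegree = f.natDegree := by
  rcases neg_one_pow_eq_or ℤ[X] k with h | h
  · rw [h, one_mul]
  · rw [h, neg_one_mul, natDegree_neg]

theorem Good.sg {f : Matrix (Flats M) (Flats M) ℤ[X]} (hf : Good f) :
    Good (KLFull.sg f) := by
  refine ⟨fun F G h => by simp [KLFull.sg, hf.supp F G h], fun F G h => ?_⟩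
  rw [KLFull.sg, Matrix.of_apply, natDegree_sign_mul]
  exact hf.deg F G h

end matrices

section whitney

variable (M : Matroid (Fin n))

/-- closure as a flat -/
noncomputable def clo (A : Finset (Fin n)) : Flats M :=
  ⟨(M.closure (A : Set (Fin n))).toFinset, by
    rw [Set.coe_toFinset]
    exact M.isFlat_closure _⟩

theorem coe_clo (A : Finset (Fin n)) : ((clo M A).1 : Set (Fin n)) = M.closure (A : Set (Fin n)) := by
  rw [clo, Set.coe_toFinset]

theorem subset_clo (hE : M.E = Set.univ) (A : Finset (Fin n)) : A ⊆ (clo M A).1 := by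
  rw [← Finset.coe_subset, coe_clo]
  exact M.subset_closure _ (by rw [hE]; exact Set.subset_univ _)

theorem clo_le {A : Finset (Fin n)} {K : Flats M} (h : A ⊆ K.1) : clo M A ≤ K := by
  change (clo M A).1 ⊆ K.1
  rw [← Finset.coe_subset, coe_clo, ← K.2.closure]
  exact M.closure_subset_closure (Finset.coe_subset.2 h)

theorem rk_clo (A : Finset (Fin n)) : rk M (clo M A) = (M.eRk (A : Set (Fin n))).toNat := by
  rw [rk, coe_clo, Matroid.eRk_closure_eq]

theorem filter_eq (hE : M.E = Set.univ) {F K L : Flats M} (hKL : K ≤ L) :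
    (L.1 \ F.1).powerset.filter (fun A => clo M (A ∪ F.1) = K) =
      (K.1 \ F.1).powerset.filter (fun A => clo M (A ∪ F.1) = K) := by
  ext A
  simp only [Finset.mem_filter, Finset.mem_powerset]
  refine and_congr_left fun h => ⟨fun h1 x hx => ?_, fun h1 => h1.trans (Finset.sdiff_subset_sdiff hKL
    le_rfl)⟩
  have h2 := subset_clo M hE (A ∪ F.1) (Finset.mem_union_left _ hx)
  rw [h] at h2
  exact Finset.mem_sdiff.2 ⟨h2, (Finset.mem_sdiff.1 (h1 hx)).2⟩

theorem maps (hE : M.E = Set.univ) {F K : Flats M} (hFK : F ≤ K) :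
    ∀ A ∈ (K.1 \ F.1).powerset, clo M (A ∪ F.1) ∈ Finset.Icc F K := by
  intro A hA
  rw [Finset.mem_powerset] at hA
  rw [Finset.mem_Icc]
  refine ⟨?_, clo_le M (Finset.union_subset (hA.trans Finset.sdiff_subset) hFK)⟩
  exact Finset.subset_union_right.trans (subset_clo M hE (A ∪ F.1))

theorem sum_sign (hE : M.E = Set.univ) (F : Flats M) : ∀ K : Flats M, F ≤ K →
    ∑ A ∈ (K.1 \ F.1).powerset.filter (fun A => clo M (A ∪ F.1) = K), (-1 : ℤ) ^ A.card =
      IncidenceAlgebra.mu ℤ F K := by
  intro K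
  induction K using WellFoundedLT.induction with
  | ind K ih =>
    intro hFK
    have h1 := Finset.sum_fiberwise_of_maps_to (maps M hE hFK) (fun A => (-1 : ℤ) ^ A.card)
    rw [Finset.sum_powerset_neg_one_pow_card, ← Finset.Ico_insert_right hFK,
      Finset.sum_insert Finset.right_notMem_Ico] at h1
    have h2 := IncidenceAlgebra.sum_Icc_mu_right (𝕜 := ℤ) F K
    rw [← Finset.Ico_insert_right hFK, Finset.sum_insert Finset.right_notMem_Ico] at h2
    have h3 : ∑ L ∈ Finset.Ico F K,
        ∑ A ∈ (K.1 \ F.1).powerset.filter (fun A => clo M (A ∪ F.1) = L), (-1 : ℤ) ^ A.card =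
        ∑ L ∈ Finset.Ico F K, IncidenceAlgebra.mu ℤ F L := by
      refine Finset.sum_congr rfl fun L hL => ?_
      rw [Finset.mem_Ico] at hL
      rw [filter_eq M hE hL.2.le]
      exact ih L hL.2 hL.1
    rw [h3] at h1
    have h4 : (if K.1 \ F.1 = ∅ then (1 : ℤ) else 0) = if F = K then 1 else 0 := by
      by_cases h : F = K
      · subst h
        simp
      · rw [if_neg h, if_neg]
        intro h5
        apply h
        exact le_antisymm hFK (Finset.sdiff_eq_empty_iff_subset.1 h5)
    rw [h4] at h1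
    linarith

theorem whitney (hE : M.E = Set.univ) (F G : Flats M) (hFG : F ≤ G) :
    ∑ A ∈ (G.1 \ F.1).powerset, (-1 : ℤ[X]) ^ A.card *
      X ^ (rk M G - (M.eRk ((A ∪ F.1 : Finset (Fin n)) : Set (Fin n))).toNat) = chi M F G := by
  rw [← Finset.sum_fiberwise_of_maps_to (maps M hE hFG), chi]
  refine Finset.sum_congr rfl fun K hK => ?_
  rw [Finset.mem_Icc] at hK
  rw [← sum_sign M hE F K hK.1, ← filter_eq M hE hK.2, map_sum, Finset.sum_mul]
  refine Finset.sum_congr rfl fun A hA => ?_
  rw [← rk_clo, (Finset.mem_filter.1 hA).2]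
  simp

end whitney

/-- A pair `(P, Q)` as in the frozen statement: `Q` is the inverse Kazhdan-Lusztig family. -/
theorem isInverseKL_of_pair (M : Matroid (Fin n)) (hE : M.E = Set.univ)
    (P Q : Finset (Fin n) → Finset (Fin n) → ℤ[X])
    (h1 : ∀ F : Finset (Fin n), M.IsFlat (F : Set (Fin n)) → P F F = 1 ∧ Q F F = 1)
    (h2 : ∀ F G : Finset (Fin n), M.IsFlat (F : Set (Fin n)) → M.IsFlat (G : Set (Fin n)) → F ⊂ G →
     2 * (P F G).natDegree < (M.eRk (G : Set (Fin n))).toNat - (M.eRk (F : Set (Fin n))).toNat ∧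
     Polynomial.reflect ((M.eRk (G : Set (Fin n))).toNat - (M.eRk (F : Set (Fin n))).toNat) (P F G) =
       ∑ H ∈ Finset.univ.filter
           (fun H : Finset (Fin n) => M.IsFlat (H : Set (Fin n)) ∧ F ⊆ H ∧ H ⊆ G),
         (∑ A ∈ (H \ F).powerset,
            (-1 : Polynomial ℤ) ^ A.card *
              Polynomial.X ^ ((M.eRk (H : Set (Fin n))).toNat
                - (M.eRk ((A ∪ F : Finset (Fin n)) : Set (Fin n))).toNat)) * P H G ∧
     ∑ H ∈ Finset.univ.filter
           (fun H : Finset (Fin n) => M.IsFlat (H : Set (Fin n)) ∧ F ⊆ H ∧ H ⊆ G),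
         (-1 : Polynomial ℤ) ^ ((M.eRk (H : Set (Fin n))).toNat - (M.eRk (F : Set (Fin n))).toNat)
           * P F H * Q H G = 0) :
    IsInverseKL M (fun F G => Q F.1 G.1) := by
  -- sums over flats between `F` and `G`
  have hsum : ∀ (F G : Flats M) (g : Finset (Fin n) → ℤ[X]),
      ∑ H ∈ Finset.univ.filter
           (fun H : Finset (Fin n) => M.IsFlat (H : Set (Fin n)) ∧ F.1 ⊆ H ∧ H ⊆ G.1), g H =
        ∑ H ∈ Finset.Icc F G, g H.1 := by
    intro F G g
    refine (Finset.sum_bij (fun (H : Flats M) _ => H.1) ?_ ?_ ?_ ?_).symm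
    · intro H hH
      rw [Finset.mem_Icc] at hH
      simp only [Finset.mem_filter, Finset.mem_univ, true_and]
      exact ⟨H.2, hH.1, hH.2⟩
    · intro H _ H' _ h
      exact Subtype.ext h
    · intro H hH
      simp only [Finset.mem_filter, Finset.mem_univ, true_and] at hH
      exact ⟨⟨H, hH.1⟩, Finset.mem_Icc.2 ⟨hH.2.1, hH.2.2⟩, rfl⟩
    · intro H _
      rfl
  have hlt : ∀ {F G : Flats M}, F < G → F.1 ⊂ G.1 := fun h => h
  have hP1 : ∀ F : Flats M, P F.1 F.1 = 1 := fun F => (h1 F.1 F.2).1
  have hQ1 : ∀ F : Flats M, Q F.1 F.1 = 1 := fun F => (h1 F.1 F.2).2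
  have hPd : ∀ F G : Flats M, F < G → 2 * (P F.1 G.1).natDegree < rk M G - rk M F :=
    fun F G h => (h2 F.1 G.1 F.2 G.2 (hlt h)).1
  have hPr : ∀ F G : Flats M, F < G → (P F.1 G.1).reflect (rk M G - rk M F) =
      ∑ H ∈ Finset.Icc F G, chi M F H * P H.1 G.1 := by
    intro F G h
    have h3 := (h2 F.1 G.1 F.2 G.2 (hlt h)).2.1
    rw [hsum F G (fun H => (∑ A ∈ (H \ F.1).powerset,
            (-1 : Polynomial ℤ) ^ A.card *
              Polynomial.X ^ ((M.eRk (H : Set (Fin n))).toNat
                - (M.eRk ((A ∪ F.1 : Finset (Fin n)) : Set (Fin n))).toNat)) * P H G.1)] at h3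
    refine h3.trans (Finset.sum_congr rfl fun H hH => ?_)
    rw [Finset.mem_Icc] at hH
    rw [← whitney M hE F H hH.1]
    rfl
  have hPQ : ∀ F G : Flats M, F < G →
      ∑ H ∈ Finset.Icc F G, (-1 : ℤ[X]) ^ (rk M H - rk M F) * P F.1 H.1 * Q H.1 G.1 = 0 := by
    intro F G h
    have h3 := (h2 F.1 G.1 F.2 G.2 (hlt h)).2.2
    rw [hsum F G (fun H => (-1 : Polynomial ℤ) ^ ((M.eRk (H : Set (Fin n))).toNat -
      (M.eRk (F.1 : Set (Fin n))).toNat) * P F.1 H * Q H G.1)] at h3
    exact h3
  -- degrees of Q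
  have hQd : ∀ F G : Flats M, F < G → 2 * (Q F.1 G.1).natDegree < rk M G - rk M F := by
    intro F
    induction F using WellFoundedGT.induction with
    | ind F ih =>
      intro G h
      have h3 := hPQ F G h
      rw [Finset.Icc_eq_cons_Ioc h.le, Finset.sum_cons, Nat.sub_self, pow_zero, one_mul, hP1,
        one_mul] at h3
      have h4 : Q F.1 G.1 = - ∑ H ∈ Finset.Ioc F G,
          (-1 : ℤ[X]) ^ (rk M H - rk M F) * P F.1 H.1 * Q H.1 G.1 := by
        linear_combination h3
      have hpos := hPd F G h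
      have h5 : (Q F.1 G.1).natDegree ≤ (rk M G - rk M F - 1) / 2 := by
        rw [h4, natDegree_neg]
        refine natDegree_sum_le_of_forall_le _ _ fun H hH => ?_
        rw [Finset.mem_Ioc] at hH
        rw [mul_assoc, natDegree_sign_mul]
        refine natDegree_mul_le.trans ?_
        have h6 := hPd F H hH.1
        have h8 := rk_add hH.1.le hH.2
        rcases hH.2.eq_or_lt with rfl | h7
        · rw [hQ1, natDegree_one]
          omega
        · have h9 := ih H hH.1 G h7
          omega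
      omega
  let p : Matrix (Flats M) (Flats M) ℤ[X] := Matrix.of fun F G => if F ≤ G then P F.1 G.1 else 0
  let q : Matrix (Flats M) (Flats M) ℤ[X] := Matrix.of fun F G => if F ≤ G then Q F.1 G.1 else 0
  let c : Matrix (Flats M) (Flats M) ℤ[X] := Matrix.of fun F G => if F ≤ G then chi M F G else 0
  have hp : ∀ {F G : Flats M}, F ≤ G → p F G = P F.1 G.1 := fun h => if_pos h
  have hq : ∀ {F G : Flats M}, F ≤ G → q F G = Q F.1 G.1 := fun h => if_pos h
  have hc : ∀ {F G : Flats M}, F ≤ G → c F G = chi M F G := fun h => if_pos h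
  have hp0 : ∀ {F G : Flats M}, ¬ F ≤ G → p F G = 0 := fun h => if_neg h
  have hq0 : ∀ {F G : Flats M}, ¬ F ≤ G → q F G = 0 := fun h => if_neg h
  have hc0 : ∀ {F G : Flats M}, ¬ F ≤ G → c F G = 0 := fun h => if_neg h
  have hgp : Good p := by
    refine ⟨fun F G h => hp0 h, fun F G h => ?_⟩
    rw [hp h]
    rcases h.eq_or_lt with rfl | h'
    · rw [hP1, natDegree_one]; omega
    · have := hPd F G h'; omega
  have hgq : Good q := by
    refine ⟨fun F G h => hq0 h, fun F G h => ?_⟩
    rw [hq h]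
    rcases h.eq_or_lt with rfl | h'
    · rw [hQ1, natDegree_one]; omega
    · have := hQd F G h'; omega
  -- restriction of sums to the interval
  have hres : ∀ (f g : Matrix (Flats M) (Flats M) ℤ[X]), (∀ F G, ¬ F ≤ G → f F G = 0) →
      (∀ F G, ¬ F ≤ G → g F G = 0) → ∀ F G : Flats M, (f * g) F G =
        ∑ H ∈ Finset.Icc F G, f F H * g H G := by
    intro f g hf hg F G
    rw [Matrix.mul_apply]
    refine (Finset.sum_subset (Finset.subset_univ _) fun H _ hH => ?_).symm
    rw [Finset.mem_Icc, not_and_or] at hH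
    rcases hH with h | h
    · rw [hf F H h, zero_mul]
    · rw [hg H G h, mul_zero]
  have hPeq : rev p = c * p := by
    ext1 F G
    rw [hres c p (fun F G h => hc0 h) (fun F G h => hp0 h), rev, Matrix.of_apply]
    by_cases h : F ≤ G
    · rw [hp h]
      rcases h.eq_or_lt with rfl | h'
      · simp [hP1, hp le_rfl, hc le_rfl, chi_self]
      · rw [hPr F G h']
        refine Finset.sum_congr rfl fun H hH => ?_
        rw [Finset.mem_Icc] at hH
        rw [hc hH.1, hp hH.2]
    · rw [hp0 h, reflect_zero, Finset.Icc_eq_empty h, Finset.sum_empty]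
  have hPQeq : sg p * q = 1 := by
    ext1 F G
    rw [hres (sg p) q (fun F G h => hgp.sg.supp F G h) (fun F G h => hq0 h)]
    by_cases h : F ≤ G
    · rcases h.eq_or_lt with rfl | h'
      · simp [sg, hP1, hQ1, hp le_rfl, hq le_rfl]
      · rw [Matrix.one_apply_ne h'.ne, ← hPQ F G h']
        refine Finset.sum_congr rfl fun H hH => ?_
        rw [Finset.mem_Icc] at hH
        rw [sg, Matrix.of_apply, hp hH.1, hq hH.2]
    · have : F ≠ G := fun h' => h h'.le
      rw [Matrix.one_apply_ne this, Finset.Icc_eq_empty h, Finset.sum_empty]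
  have h3 : p * sg q = 1 := by
    have := congrArg sg hPQeq
    rwa [sg_mul hgp.sg hgq, sg_sg, sg_one] at this
  have h4 : sg q * p = 1 := mul_eq_one_comm.1 h3
  have h5 : c = rev p * sg q := by
    rw [hPeq, Matrix.mul_assoc, h3, Matrix.mul_one]
  have h6 : rev c = p * rev (sg q) := by
    rw [h5, rev_mul hgp.rev hgq.sg, rev_rev]
  have h7 : sg q * rev c = rev (sg q) := by
    rw [h6, ← Matrix.mul_assoc, h4, Matrix.one_mul]
  refine ⟨hQ1, hQd, fun F G h => ?_⟩
  have h8 : ∑ H ∈ Finset.Icc F G, ((-1 : ℤ[X]) ^ (rk M H - rk M F) * q F H) *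
      (c H G).reflect (rk M G - rk M H) =
      ((-1) ^ (rk M G - rk M F) * q F G).reflect (rk M G - rk M F) := by
    have h := congrFun (congrFun h7 F) G
    rw [hres (sg q) (rev c) (fun F G h => hgq.sg.supp F G h)
      (fun F G h => by rw [rev, Matrix.of_apply, hc0 h, reflect_zero])] at h
    exact h
  rw [hq h] at h8
  have h9 : ((-1 : ℤ[X]) ^ (rk M G - rk M F) * Q F.1 G.1).reflect (rk M G - rk M F) =
      (-1) ^ (rk M G - rk M F) * (Q F.1 G.1).reflect (rk M G - rk M F) := by
    have : (-1 : ℤ[X]) ^ (rk M G - rk M F) = C ((-1) ^ (rk M G - rk M F)) := by simp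
    rw [this, reflect_C_mul]
  rw [h9] at h8
  refine h8.symm.trans (Finset.sum_congr rfl fun H hH => ?_)
  rw [Finset.mem_Icc] at hH
  rw [hq hH.1, hc hH.2]

end Pool.Agent.Helper27.KLFull
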