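import Mathlib

/-!
The matroid of a finite family of vectors.
-/

set_option autoImplicit false

open Module Set

namespace Pool.Agent.Helper27.KL

variable {K : Type*} [Field K] {V : Type*} [AddCommGroup V] [Module K V]
variable {ι : Type*} [Finite ι]

theorem finrank_span_linearIndepOn {φ : ι → V} {I : Set ι} (hI : LinearIndepOn K φ I) :
    finrank K (Submodule.span K (φ '' I)) = I.ncard := by
  classical
  have : Fintype I := Fintype.ofFinite I
  have h := finrank_span_eq_card (R := K) (b := fun x : I => φ x) hI
  rw [Set.image_eq_range, h, Set.ncard_eq_toFinset_card', Set.toFinset_card]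

variable (K) in
/-- The matroid of the linear dependencies of a finite family of vectors. -/
noncomputable def linMat (φ : ι → V) : Matroid ι :=
  (IndepMatroid.ofFinite (E := Set.univ) Set.finite_univ (fun I => LinearIndepOn K φ I)
    (by simp [linearIndepOn_empty])
    (fun I J hJ hIJ => hJ.mono hIJ)
    (by
      intro I J hI hJ hlt
      by_contra hcon
      push Not at hcon
      have h1 : φ '' J ⊆ Submodule.span K (φ '' I) := by
        rintro _ ⟨e, he, rfl⟩
        by_cases heI : e ∈ I
        · exact Submodule.subset_span ⟨e, heI, rfl⟩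
        · by_contra hns
          exact hcon e he heI (hI.insert hns)
      have h2 : Submodule.span K (φ '' J) ≤ Submodule.span K (φ '' I) :=
        Submodule.span_le.mpr h1
      have : FiniteDimensional K (Submodule.span K (φ '' I)) :=
        FiniteDimensional.span_of_finite K (Set.toFinite _)
      have h3 := Submodule.finrank_mono h2
      rw [finrank_span_linearIndepOn hI, finrank_span_linearIndepOn hJ] at h3
      omega)
    (fun I _ => Set.subset_univ I)).matroid

@[simp] theorem linMat_E (φ : ι → V) : (linMat K φ).E = Set.univ := rfl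

theorem linMat_indep {φ : ι → V} {I : Set ι} : (linMat K φ).Indep I ↔ LinearIndepOn K φ I := by
  simp [linMat]

theorem span_isBasis {φ : ι → V} {I X : Set ι} (h : (linMat K φ).IsBasis I X) :
    Submodule.span K (φ '' I) = Submodule.span K (φ '' X) := by
  apply le_antisymm
  · exact Submodule.span_mono (Set.image_mono h.subset)
  · rw [Submodule.span_le]
    rintro _ ⟨x, hx, rfl⟩
    by_contra hns
    have h1 : (linMat K φ).Indep (insert x I) := by
      rw [linMat_indep]
      exact (linMat_indep.mp h.indep).insert hns
    have h2 : x ∈ I := h.mem_of_insert_indep hx h1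
    exact hns (Submodule.subset_span ⟨x, h2, rfl⟩)

theorem mem_closure_linMat {φ : ι → V} {X : Set ι} {e : ι} :
    e ∈ (linMat K φ).closure X ↔ φ e ∈ Submodule.span K (φ '' X) := by
  obtain ⟨I, hI⟩ := (linMat K φ).exists_isBasis X (by simp)
  rw [← hI.closure_eq_closure, ← span_isBasis hI, hI.indep.mem_closure_iff']
  constructor
  · rintro ⟨_, h⟩
    by_contra hns
    have h1 : (linMat K φ).Indep (insert e I) := by
      rw [linMat_indep]
      exact (linMat_indep.mp hI.indep).insert hns
    exact hns (Submodule.subset_span ⟨e, h h1, rfl⟩)
  · intro h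
    refine ⟨by simp, fun h1 => ?_⟩
    by_contra heI
    rw [linMat_indep] at h1
    have := (linearIndepOn_insert heI).mp h1
    exact this.2 h

theorem eRk_linMat (φ : ι → V) (X : Set ι) :
    (linMat K φ).eRk X = (finrank K (Submodule.span K (φ '' X)) : ℕ∞) := by
  obtain ⟨I, hI⟩ := (linMat K φ).exists_isBasis X (by simp)
  rw [hI.eRk_eq_encard, ← span_isBasis hI,
    finrank_span_linearIndepOn (linMat_indep.mp hI.indep)]
  exact (Set.toFinite I).cast_ncard_eq.symm

theorem isFlat_linMat {φ : ι → V} {F : Set ι} :
    (linMat K φ).IsFlat F ↔ ∀ e, φ e ∈ Submodule.span K (φ '' F) → e ∈ F := by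
  rw [Matroid.isFlat_iff_closure_eq]
  constructor
  · intro h e he
    rw [← h]
    exact mem_closure_linMat.mpr he
  · intro h
    apply subset_antisymm
    · intro e he
      exact h e (mem_closure_linMat.mp he)
    · exact (linMat K φ).subset_closure F (by simp)

end Pool.Agent.Helper27.KL
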