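import Pool.Agent.Helper27.KLCoeff
import Pool.Agent.Helper27.KLMat

/-!
The Kazhdan-Lusztig and inverse Kazhdan-Lusztig polynomials of the vector matroid on the
complement of a bad set `S`.
-/

set_option autoImplicit false
set_option linter.unusedSectionVars false

open Polynomial Module
open Classical

namespace Pool.Agent.Helper27.KL

variable {K : Type} [Field K] [Fintype K]
variable {V : Type} [AddCommGroup V] [Module K V] [Finite V]
variable {n : ℕ} (φ : Fin n → V) (S : Set V)

/-- The span of the vectors indexed by `F`. -/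
noncomputable def sp (K : Type) [Field K] {V : Type} [AddCommGroup V] [Module K V] {n : ℕ}
    (φ : Fin n → V) (F : Finset (Fin n)) : Submodule K V :=
  Submodule.span K (φ '' (F : Set (Fin n)))

/-- The indices of the vectors in `W`. -/
noncomputable def fl (φ : Fin n → V) (W : Submodule K V) : Finset (Fin n) :=
  Finset.univ.filter (fun e => φ e ∈ W)

theorem mem_fl {φ : Fin n → V} {W : Submodule K V} {e : Fin n} : e ∈ fl φ W ↔ φ e ∈ W := by
  simp [fl]

theorem sp_mono {φ : Fin n → V} {F G : Finset (Fin n)} (h : F ⊆ G) : sp K φ F ≤ sp K φ G :=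
  Submodule.span_mono (Set.image_mono (Finset.coe_subset.mpr h))

theorem fl_mono {φ : Fin n → V} {U W : Submodule K V} (h : U ≤ W) : fl φ U ⊆ fl φ W := by
  intro e he
  rw [mem_fl] at he ⊢
  exact h he

theorem mem_sp {φ : Fin n → V} {F : Finset (Fin n)} {e : Fin n} (he : e ∈ F) : φ e ∈ sp K φ F :=
  Submodule.subset_span ⟨e, he, rfl⟩

theorem sp_empty (φ : Fin n → V) : sp K φ ∅ = ⊥ := by
  simp [sp]

theorem flat_iff {φ : Fin n → V} {F : Finset (Fin n)} :
    (linMat K φ).IsFlat (F : Set (Fin n)) ↔ fl φ (sp K φ F) = F := by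
  rw [isFlat_linMat]
  constructor
  · intro h
    ext e
    rw [mem_fl]
    exact ⟨fun he => h e he, fun he => mem_sp he⟩
  · intro h e he
    have : e ∈ fl φ (sp K φ F) := mem_fl.mpr he
    rw [h] at this
    exact this

theorem rk_eq (φ : Fin n → V) (F : Finset (Fin n)) :
    ((linMat K φ).eRk (F : Set (Fin n))).toNat = finrank K (sp K φ F) := by
  rw [eRk_linMat]
  rfl

section

variable {φ S}
variable (hφ : Set.range φ = Sᶜ) (h0 : (0 : V) ∈ S)
  (hspan : ∀ W : Submodule K V, ¬ Bad S W → Submodule.span K ((W : Set V) \ S) = W)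
include hφ h0 hspan

theorem phi_not_mem (e : Fin n) : φ e ∉ S := by
  have : φ e ∈ Set.range φ := ⟨e, rfl⟩
  rw [hφ] at this
  exact this

theorem exists_phi {v : V} (hv : v ∉ S) : ∃ e, φ e = v := by
  have : v ∈ Set.range φ := by rw [hφ]; exact hv
  exact this

theorem fl_bot : fl φ (⊥ : Submodule K V) = ∅ := by
  ext e
  rw [mem_fl, Submodule.mem_bot]
  simp only [Finset.notMem_empty, iff_false]
  intro h
  exact phi_not_mem hφ h0 hspan e (h ▸ h0)

theorem flat_empty : (linMat K φ).IsFlat ((∅ : Finset (Fin n)) : Set (Fin n)) := by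
  rw [flat_iff, sp_empty, fl_bot hφ h0 hspan]

theorem sp_fl {W : Submodule K V} (hW : ¬ Bad S W) : sp K φ (fl φ W) = W := by
  have h1 : φ '' (fl φ W : Set (Fin n)) = (W : Set V) \ S := by
    ext v
    constructor
    · rintro ⟨e, he, rfl⟩
      exact ⟨mem_fl.mp he, phi_not_mem hφ h0 hspan e⟩
    · rintro ⟨hv, hvS⟩
      obtain ⟨e, rfl⟩ := exists_phi hφ h0 hspan hvS
      exact ⟨e, mem_fl.mpr hv, rfl⟩
  rw [sp, h1, hspan W hW]

theorem not_bad_sp {F : Finset (Fin n)} (hF : F ≠ ∅) : ¬ Bad S (sp K φ F) := by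
  obtain ⟨e, he⟩ := Finset.nonempty_iff_ne_empty.mpr hF
  intro hb
  exact phi_not_mem hφ h0 hspan e (hb (mem_sp he))

theorem sp_ne_bot {F : Finset (Fin n)} (hF : F ≠ ∅) : sp K φ F ≠ ⊥ := by
  intro h
  apply not_bad_sp hφ h0 hspan hF
  rw [h]
  intro x hx
  have : x = 0 := by simpa using hx
  rw [this]
  exact h0

theorem not_bad_mono {U W : Submodule K V} (hU : ¬ Bad S U) (h : U ≤ W) : ¬ Bad S W :=
  fun hb => hU (hb.mono h)

theorem flat_fl {W : Submodule K V} (hW : ¬ Bad S W) :
    (linMat K φ).IsFlat (fl φ W : Set (Fin n)) := by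
  rw [flat_iff, sp_fl hφ h0 hspan hW]

theorem fl_nonempty {W : Submodule K V} (hW : ¬ Bad S W) : fl φ W ≠ ∅ := by
  intro h
  have h1 := sp_fl hφ h0 hspan hW
  rw [h, sp_empty] at h1
  apply hW
  rw [← h1]
  intro x hx
  have : x = 0 := by simpa using hx
  rw [this]
  exact h0

/-- Sums over flats above a nonempty flat. -/
theorem sum_flats_ne {M : Type*} [AddCommMonoid M] (g : Submodule K V → M)
    {F G : Finset (Fin n)} (hF : (linMat K φ).IsFlat (F : Set (Fin n)))
    (hG : (linMat K φ).IsFlat (G : Set (Fin n))) (hne : F ≠ ∅) :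
    ∑ H ∈ Finset.univ.filter
      (fun H : Finset (Fin n) => (linMat K φ).IsFlat (H : Set (Fin n)) ∧ F ⊆ H ∧ H ⊆ G),
      g (sp K φ H) = ∑ W ∈ Int (sp K φ F) (sp K φ G), g W := by
  apply Finset.sum_nbij' (fun H => sp K φ H) (fun W => fl φ W)
  · intro H hH
    simp only [Finset.mem_filter, Finset.mem_univ, true_and] at hH
    rw [mem_Int]
    exact ⟨sp_mono hH.2.1, sp_mono hH.2.2⟩
  · intro W hW
    rw [mem_Int] at hW
    simp only [Finset.mem_filter, Finset.mem_univ, true_and]
    have hb := not_bad_mono hφ h0 hspan (not_bad_sp hφ h0 hspan hne) hW.1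
    refine ⟨flat_fl hφ h0 hspan hb, ?_, ?_⟩
    · rw [← flat_iff.mp hF]; exact fl_mono hW.1
    · rw [← flat_iff.mp hG]; exact fl_mono hW.2
  · intro H hH
    simp only [Finset.mem_filter, Finset.mem_univ, true_and] at hH
    exact flat_iff.mp hH.1
  · intro W hW
    rw [mem_Int] at hW
    exact sp_fl hφ h0 hspan (not_bad_mono hφ h0 hspan (not_bad_sp hφ h0 hspan hne) hW.1)
  · intro H _
    rfl

/-- Sums over flats above the empty flat. -/
theorem sum_flats_empty {M : Type*} [AddCommMonoid M] (g : Finset (Fin n) → M)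
    (g' : Submodule K V → M) {G : Finset (Fin n)}
    (hg : ∀ H : Finset (Fin n), (linMat K φ).IsFlat (H : Set (Fin n)) → H ≠ ∅ → H ⊆ G →
      g H = g' (sp K φ H))
    (hG : (linMat K φ).IsFlat (G : Set (Fin n))) :
    ∑ H ∈ Finset.univ.filter
      (fun H : Finset (Fin n) => (linMat K φ).IsFlat (H : Set (Fin n)) ∧ ∅ ⊆ H ∧ H ⊆ G),
      g H = g ∅ + ∑ W ∈ GoodIn S ⊥ (sp K φ G), g' W := by
  have h1 : (∅ : Finset (Fin n)) ∈ Finset.univ.filter
      (fun H : Finset (Fin n) => (linMat K φ).IsFlat (H : Set (Fin n)) ∧ ∅ ⊆ H ∧ H ⊆ G) := by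
    simp only [Finset.mem_filter, Finset.mem_univ, true_and]
    exact ⟨flat_empty hφ h0 hspan, Finset.Subset.refl _, Finset.empty_subset _⟩
  rw [← Finset.add_sum_erase _ _ h1]
  congr 1
  apply Finset.sum_nbij' (fun H => sp K φ H) (fun W => fl φ W)
  · intro H hH
    simp only [Finset.mem_erase, Finset.mem_filter, Finset.mem_univ, true_and] at hH
    rw [mem_GoodIn]
    exact ⟨⟨bot_le, sp_mono hH.2.2.2⟩, not_bad_sp hφ h0 hspan hH.1⟩
  · intro W hW
    rw [mem_GoodIn] at hW
    simp only [Finset.mem_erase, Finset.mem_filter, Finset.mem_univ, true_and]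
    refine ⟨fl_nonempty hφ h0 hspan hW.2, flat_fl hφ h0 hspan hW.2, Finset.empty_subset _, ?_⟩
    rw [← flat_iff.mp hG]; exact fl_mono hW.1.2
  · intro H hH
    simp only [Finset.mem_erase, Finset.mem_filter, Finset.mem_univ, true_and] at hH
    exact flat_iff.mp hH.2.1
  · intro W hW
    rw [mem_GoodIn] at hW
    exact sp_fl hφ h0 hspan hW.2
  · intro H hH
    simp only [Finset.mem_erase, Finset.mem_filter, Finset.mem_univ, true_and] at hH
    exact hg H hH.2.1 hH.1 hH.2.2.2

end

/-- Inclusion-exclusion sum in `ℤ[X]`. -/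
theorem sum_pow_neg_one {α : Type*} [DecidableEq α] (x : Finset α) :
    ∑ A ∈ x.powerset, (-1 : ℤ[X]) ^ A.card = if x = ∅ then 1 else 0 := by
  have h := congrArg (Int.castRingHom ℤ[X]) (Finset.sum_powerset_neg_one_pow_card (x := x))
  rw [map_sum] at h
  simp only [map_pow, map_neg, map_one] at h
  rw [h]
  split_ifs <;> simp

/-- Whitney's formula for the characteristic polynomial in terms of subspaces. -/
theorem whitney (φ : Fin n → V) {F H : Finset (Fin n)} (hFH : F ⊆ H) :
    ∑ A ∈ (H \ F).powerset, (-1 : ℤ[X]) ^ A.card *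
      X ^ (((linMat K φ).eRk (H : Set (Fin n))).toNat -
        ((linMat K φ).eRk ((A ∪ F : Finset (Fin n)) : Set (Fin n))).toNat) =
    ∑ N ∈ Int (sp K φ F) (sp K φ H),
      if fl φ N ∩ (H \ F) = ∅ then Phi (Fintype.card K) (finrank K (sp K φ H) - finrank K N)
      else 0 := by
  have h1 : ∀ A ∈ (H \ F).powerset, (-1 : ℤ[X]) ^ A.card *
      X ^ (((linMat K φ).eRk (H : Set (Fin n))).toNat -
        ((linMat K φ).eRk ((A ∪ F : Finset (Fin n)) : Set (Fin n))).toNat) =
      ∑ N ∈ (Int (sp K φ F) (sp K φ H)).filter (fun N => A ⊆ fl φ N),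
        (-1 : ℤ[X]) ^ A.card * Phi (Fintype.card K) (finrank K (sp K φ H) - finrank K N) := by
    intro A hA
    rw [Finset.mem_powerset] at hA
    have hAH : A ∪ F ⊆ H := by
      apply Finset.union_subset _ hFH
      exact hA.trans Finset.sdiff_subset
    rw [rk_eq, rk_eq, ← sum_Phi_down (sp_mono hAH), Finset.mul_sum]
    apply Finset.sum_congr _ (fun _ _ => rfl)
    ext N
    simp only [mem_Int, Finset.mem_filter]
    constructor
    · rintro ⟨h2, h3⟩
      refine ⟨⟨(sp_mono Finset.subset_union_right).trans h2, h3⟩, ?_⟩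
      intro e he
      rw [mem_fl]
      exact h2 (mem_sp (Finset.mem_union_left _ he))
    · rintro ⟨⟨h2, h3⟩, h4⟩
      refine ⟨?_, h3⟩
      rw [sp, Submodule.span_le]
      rintro _ ⟨e, he, rfl⟩
      rw [Finset.mem_coe, Finset.mem_union] at he
      rcases he with he | he
      · exact mem_fl.mp (h4 he)
      · exact h2 (mem_sp he)
  rw [Finset.sum_congr rfl h1]
  have h2 : ∑ A ∈ (H \ F).powerset, ∑ N ∈ (Int (sp K φ F) (sp K φ H)).filter (fun N => A ⊆ fl φ N),
        (-1 : ℤ[X]) ^ A.card * Phi (Fintype.card K) (finrank K (sp K φ H) - finrank K N) =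
      ∑ N ∈ Int (sp K φ F) (sp K φ H), ∑ A ∈ (fl φ N ∩ (H \ F)).powerset,
        (-1 : ℤ[X]) ^ A.card * Phi (Fintype.card K) (finrank K (sp K φ H) - finrank K N) := by
    apply Finset.sum_comm'
    intro A N
    simp only [Finset.mem_powerset, Finset.mem_filter]
    constructor
    · rintro ⟨h3, h4, h5⟩
      exact ⟨Finset.subset_inter h5 h3, h4⟩
    · rintro ⟨h3, h4⟩
      exact ⟨h3.trans Finset.inter_subset_right, h4, h3.trans Finset.inter_subset_left⟩
  rw [h2]
  apply Finset.sum_congr rfl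
  intro N _
  rw [← Finset.sum_mul, sum_pow_neg_one]
  split_ifs <;> simp

end Pool.Agent.Helper27.KL
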