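import Pool.Agent.Helper27.KLMain

/-!
The families of Kazhdan-Lusztig and inverse Kazhdan-Lusztig polynomials, and their relations.
-/

set_option autoImplicit false
set_option linter.unusedSectionVars false

open Polynomial Module
open Classical

namespace Pool.Agent.Helper27.KL

variable {K : Type} [Field K] [Fintype K]
variable {V : Type} [AddCommGroup V] [Module K V] [Finite V]
variable {n : ℕ}

/-- The Kazhdan-Lusztig polynomials. -/
noncomputable def PP (K : Type) [Field K] [Fintype K] {V : Type} [AddCommGroup V] [Module K V]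
    [Finite V] {n : ℕ} (φ : Fin n → V) (S : Set V) (F G : Finset (Fin n)) : ℤ[X] :=
  if F = ∅ then (if G = ∅ then 1 else Pol S (sp K φ G)) else 1

/-- The inverse Kazhdan-Lusztig polynomials. -/
noncomputable def QQ (K : Type) [Field K] [Fintype K] {V : Type} [AddCommGroup V] [Module K V]
    [Finite V] {n : ℕ} (φ : Fin n → V) (S : Set V) (F G : Finset (Fin n)) : ℤ[X] :=
  if F = ∅ then (if G = ∅ then 1 else QPol S (sp K φ G)) else
    C (Qc (Fintype.card K) (finrank K (sp K φ G) - finrank K (sp K φ F)))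

section

variable {φ : Fin n → V} {S : Set V}
variable (hφ : Set.range φ = Sᶜ) (h0 : (0 : V) ∈ S)
  (hspan : ∀ W : Submodule K V, ¬ Bad S W → Submodule.span K ((W : Set V) \ S) = W)
include hφ h0 hspan

theorem whitney_ne {F H : Finset (Fin n)} (hF : (linMat K φ).IsFlat (F : Set (Fin n)))
    (hH : (linMat K φ).IsFlat (H : Set (Fin n))) (hFH : F ⊆ H) (hne : F ≠ ∅) :
    ∑ A ∈ (H \ F).powerset, (-1 : ℤ[X]) ^ A.card *
      X ^ (((linMat K φ).eRk (H : Set (Fin n))).toNat -
        ((linMat K φ).eRk ((A ∪ F : Finset (Fin n)) : Set (Fin n))).toNat) =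
    Phi (Fintype.card K) (finrank K (sp K φ H) - finrank K (sp K φ F)) := by
  rw [whitney φ hFH]
  rw [Finset.sum_eq_single (sp K φ F)]
  · rw [flat_iff.mp hF, if_pos]
    exact Finset.inter_sdiff_self F H
  · intro N hN hne'
    rw [mem_Int] at hN
    rw [if_neg]
    intro hcon
    apply hne'
    have hb := not_bad_mono hφ h0 hspan (not_bad_sp hφ h0 hspan hne) hN.1
    have h1 : fl φ N ⊆ F := by
      intro e he
      by_contra heF
      have h2 : e ∈ H := by
        rw [← flat_iff.mp hH]
        exact fl_mono hN.2 he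
      have h3 : e ∈ fl φ N ∩ (H \ F) :=
        Finset.mem_inter.mpr ⟨he, Finset.mem_sdiff.mpr ⟨h2, heF⟩⟩
      rw [hcon] at h3
      exact absurd h3 (Finset.notMem_empty e)
    have h4 := sp_mono (K := K) (φ := φ) h1
    rw [sp_fl hφ h0 hspan hb] at h4
    exact le_antisymm h4 hN.1
  · intro h
    exact absurd (mem_Int.mpr ⟨le_rfl, sp_mono hFH⟩) h

theorem fl_eq_empty_iff {W : Submodule K V} : fl φ W = ∅ ↔ Bad S W := by
  constructor
  · intro h
    by_contra hb
    exact fl_nonempty hφ h0 hspan hb h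
  · intro hb
    ext e
    rw [mem_fl]
    simp only [Finset.notMem_empty, iff_false]
    intro he
    exact phi_not_mem hφ h0 hspan e (hb he)

theorem whitney_empty {H : Finset (Fin n)}
    (hH : (linMat K φ).IsFlat (H : Set (Fin n))) :
    ∑ A ∈ (H \ ∅).powerset, (-1 : ℤ[X]) ^ A.card *
      X ^ (((linMat K φ).eRk (H : Set (Fin n))).toNat -
        ((linMat K φ).eRk ((A ∪ ∅ : Finset (Fin n)) : Set (Fin n))).toNat) =
    ∑ N ∈ BadIn S (sp K φ H), Phi (Fintype.card K) (finrank K (sp K φ H) - finrank K N) := by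
  rw [whitney φ (Finset.empty_subset H), sp_empty, ← Finset.sum_filter]
  apply Finset.sum_congr _ (fun _ _ => rfl)
  ext N
  rw [Finset.mem_filter, mem_Int, mem_BadIn, Finset.sdiff_empty]
  constructor
  · rintro ⟨⟨_, h1⟩, h2⟩
    refine ⟨h1, ?_⟩
    rw [← fl_eq_empty_iff hφ h0 hspan, ← h2]
    symm
    apply Finset.inter_eq_left.mpr
    rw [← flat_iff.mp hH]
    exact fl_mono h1
  · rintro ⟨h1, h2⟩
    refine ⟨⟨bot_le, h1⟩, ?_⟩
    rw [(fl_eq_empty_iff hφ h0 hspan).mpr h2]
    exact Finset.empty_inter H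

theorem hyp1 (F : Finset (Fin n)) : PP K φ S F F = 1 ∧ QQ K φ S F F = 1 := by
  unfold PP QQ
  split_ifs
  · exact ⟨rfl, rfl⟩
  · refine ⟨rfl, ?_⟩
    simp [Qc]

theorem sp_lt {F G : Finset (Fin n)} (hF : (linMat K φ).IsFlat (F : Set (Fin n)))
    (hG : (linMat K φ).IsFlat (G : Set (Fin n))) (hFG : F ⊂ G) : sp K φ F < sp K φ G := by
  apply lt_of_le_of_ne (sp_mono hFG.1)
  intro h
  apply hFG.ne
  rw [← flat_iff.mp hF, ← flat_iff.mp hG, h]

theorem hyp2 (F G : Finset (Fin n)) (hF : (linMat K φ).IsFlat (F : Set (Fin n)))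
    (hG : (linMat K φ).IsFlat (G : Set (Fin n))) (hFG : F ⊂ G) :
    2 * (PP K φ S F G).natDegree < ((linMat K φ).eRk (G : Set (Fin n))).toNat -
      ((linMat K φ).eRk (F : Set (Fin n))).toNat ∧
     Polynomial.reflect (((linMat K φ).eRk (G : Set (Fin n))).toNat -
       ((linMat K φ).eRk (F : Set (Fin n))).toNat) (PP K φ S F G) =
       ∑ H ∈ Finset.univ.filter
           (fun H : Finset (Fin n) => (linMat K φ).IsFlat (H : Set (Fin n)) ∧ F ⊆ H ∧ H ⊆ G),
         (∑ A ∈ (H \ F).powerset,
            (-1 : Polynomial ℤ) ^ A.card *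
              Polynomial.X ^ (((linMat K φ).eRk (H : Set (Fin n))).toNat
                - ((linMat K φ).eRk ((A ∪ F : Finset (Fin n)) : Set (Fin n))).toNat)) *
            PP K φ S H G ∧
     ∑ H ∈ Finset.univ.filter
           (fun H : Finset (Fin n) => (linMat K φ).IsFlat (H : Set (Fin n)) ∧ F ⊆ H ∧ H ⊆ G),
         (-1 : Polynomial ℤ) ^ (((linMat K φ).eRk (H : Set (Fin n))).toNat -
            ((linMat K φ).eRk (F : Set (Fin n))).toNat)
           * PP K φ S F H * QQ K φ S H G = 0 := by
  have hfd : FiniteDimensional K V := Module.Finite.of_finite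
  have hlt := sp_lt hφ h0 hspan hF hG hFG
  have hrk := Submodule.finrank_lt_finrank_of_lt hlt
  have hGne : G ≠ ∅ := by
    rintro rfl
    exact Finset.not_ssubset_empty F hFG
  by_cases hne : F = ∅
  · subst hne
    have hP : PP K φ S ∅ G = Pol S (sp K φ G) := by rw [PP, if_pos rfl, if_neg hGne]
    have hQ : QQ K φ S ∅ G = QPol S (sp K φ G) := by rw [QQ, if_pos rfl, if_neg hGne]
    have hr0 : ((linMat K φ).eRk ((∅ : Finset (Fin n)) : Set (Fin n))).toNat = 0 := by
      rw [rk_eq, sp_empty, finrank_bot]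
    rw [sp_empty, finrank_bot] at hrk
    have hP1 : ∀ H : Finset (Fin n), H ≠ ∅ → PP K φ S H G = 1 := by
      intro H hH
      rw [PP, if_neg hH]
    refine ⟨?_, ?_, ?_⟩
    · rw [hP, hr0, rk_eq, Nat.sub_zero]
      exact natDegree_Pol S _ hrk
    · rw [sum_flats_empty hφ h0 hspan _
        (fun W => ∑ N ∈ BadIn S W, Phi (Fintype.card K) (finrank K W - finrank K N)) ?_ hG]
      · rw [hP, hr0, rk_eq, Nat.sub_zero, reflect_Pol]
        congr 1
        simp
      · intro H hH hHne _
        rw [whitney_empty hφ h0 hspan hH, hP1 H hHne, mul_one]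
    · rw [sum_flats_empty hφ h0 hspan _
        (fun W => (-1) ^ (finrank K W) * Pol S W *
          C (Qc (Fintype.card K) (finrank K (sp K φ G) - finrank K W))) ?_ hG]
      · rw [hQ, hr0, QPol]
        simp [PP]
      · intro H hH hHne _
        rw [hr0, rk_eq, Nat.sub_zero, PP, if_pos rfl, if_neg hHne, QQ, if_neg hHne]
  · have hFne : ∀ H : Finset (Fin n), F ⊆ H → H ≠ ∅ := by
      rintro H hFH rfl
      exact hne (Finset.subset_empty.mp hFH)
    refine ⟨?_, ?_, ?_⟩
    · rw [PP, if_neg hne, rk_eq, rk_eq]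
      simp
      omega
    · have h1 : ∀ H ∈ Finset.univ.filter
           (fun H : Finset (Fin n) => (linMat K φ).IsFlat (H : Set (Fin n)) ∧ F ⊆ H ∧ H ⊆ G),
         (∑ A ∈ (H \ F).powerset,
            (-1 : Polynomial ℤ) ^ A.card *
              Polynomial.X ^ (((linMat K φ).eRk (H : Set (Fin n))).toNat
                - ((linMat K φ).eRk ((A ∪ F : Finset (Fin n)) : Set (Fin n))).toNat)) *
            PP K φ S H G = Phi (Fintype.card K) (finrank K (sp K φ H) - finrank K (sp K φ F)) := by
        intro H hH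
        simp only [Finset.mem_filter, Finset.mem_univ, true_and] at hH
        rw [whitney_ne hφ h0 hspan hF hH.1 hH.2.1 hne, PP, if_neg (hFne H hH.2.1), mul_one]
      rw [Finset.sum_congr rfl h1, sum_flats_ne hφ h0 hspan
        (fun W => Phi (Fintype.card K) (finrank K W - finrank K (sp K φ F))) hF hG hne,
        sum_Phi_up hlt.le, PP, if_neg hne, rk_eq, rk_eq]
      rw [← pow_zero X, reflect_monomial, revAt_le (Nat.zero_le _), Nat.sub_zero]
    · have h1 : ∀ H ∈ Finset.univ.filter
           (fun H : Finset (Fin n) => (linMat K φ).IsFlat (H : Set (Fin n)) ∧ F ⊆ H ∧ H ⊆ G),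
         (-1 : Polynomial ℤ) ^ (((linMat K φ).eRk (H : Set (Fin n))).toNat -
            ((linMat K φ).eRk (F : Set (Fin n))).toNat)
           * PP K φ S F H * QQ K φ S H G = C ((-1) ^ (finrank K (sp K φ H) - finrank K (sp K φ F)) *
             Qc (Fintype.card K) (finrank K (sp K φ G) - finrank K (sp K φ H))) := by
        intro H hH
        simp only [Finset.mem_filter, Finset.mem_univ, true_and] at hH
        rw [rk_eq, rk_eq, PP, if_neg hne, QQ, if_neg (hFne H hH.2.1), mul_one, C_mul, C_pow, C_neg,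
          C_1]
      rw [Finset.sum_congr rfl h1, sum_flats_ne hφ h0 hspan
        (fun W => C ((-1) ^ (finrank K W - finrank K (sp K φ F)) *
             Qc (Fintype.card K) (finrank K (sp K φ G) - finrank K W))) hF hG hne,
        ← map_sum, sum_alt hlt.le hlt.ne, C_0]

end

end Pool.Agent.Helper27.KL
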