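import Pool.Agent.Helper27.KLCount

/-!
The Kazhdan-Lusztig relations for the lattice of subspaces from which the nonzero subspaces
contained in a set `S` are removed.
-/

set_option autoImplicit false
set_option linter.unusedSectionVars false

open Polynomial Module

namespace Pool.Agent.Helper27.KL

variable {K : Type*} [Field K] [Fintype K]
variable {V : Type*} [AddCommGroup V] [Module K V] [Finite V]

/-- `N` is contained in the bad set. -/
def Bad (S : Set V) (N : Submodule K V) : Prop := (N : Set V) ⊆ S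

/-- Building blocks of the Kazhdan-Lusztig polynomials. -/
noncomputable def T (d k : ℕ) : ℤ[X] :=
  if 2 * d < k then X ^ d else if k < 2 * d then -X ^ (k - d) else 0

open Classical in
/-- The bad subspaces of `W`. -/
noncomputable def BadIn (S : Set V) (W : Submodule K V) : Finset (Submodule K V) :=
  (Int ⊥ W).filter (fun N => Bad S N)

theorem mem_BadIn {S : Set V} {W N : Submodule K V} : N ∈ BadIn S W ↔ N ≤ W ∧ Bad S N := by
  simp [BadIn, mem_Int]

theorem Bad.mono {S : Set V} {N W : Submodule K V} (h : Bad S W) (hNW : N ≤ W) : Bad S N :=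
  fun _ hx => h (hNW hx)

open Classical in
/-- The good subspaces between `Y` and `W`. -/
noncomputable def GoodIn (S : Set V) (Y W : Submodule K V) : Finset (Submodule K V) :=
  (Int Y W).filter (fun N => ¬ Bad S N)

theorem mem_GoodIn {S : Set V} {Y W N : Submodule K V} :
    N ∈ GoodIn S Y W ↔ (Y ≤ N ∧ N ≤ W) ∧ ¬ Bad S N := by
  simp [GoodIn, mem_Int]

/-- The Kazhdan-Lusztig polynomial of the interval below `W`. -/
noncomputable def Pol (S : Set V) (W : Submodule K V) : ℤ[X] :=
  ∑ N ∈ BadIn S W, T (finrank K N) (finrank K W)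

theorem sum_swap (S : Set V) (W : Submodule K V) {M : Type*} [AddCommGroup M]
    (f : Submodule K V → Submodule K V → M) :
    ∑ H ∈ GoodIn S ⊥ W, ∑ N ∈ BadIn S H, f N H =
      ∑ N ∈ BadIn S W, ∑ H ∈ Int N W, f N H - ∑ H ∈ BadIn S W, ∑ N ∈ Int ⊥ H, f N H := by
  classical
  have h1 : ∑ H ∈ GoodIn S ⊥ W, ∑ N ∈ BadIn S H, f N H =
      ∑ N ∈ BadIn S W, ∑ H ∈ GoodIn S N W, f N H := by
    apply Finset.sum_comm'
    intro H N
    simp only [mem_GoodIn, mem_BadIn]
    constructor
    · rintro ⟨⟨⟨_, h1⟩, h2⟩, h3, h4⟩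
      exact ⟨⟨⟨h3, h1⟩, h2⟩, h3.trans h1, h4⟩
    · rintro ⟨⟨⟨h1, h2⟩, h3⟩, h4, h5⟩
      exact ⟨⟨⟨bot_le, h2⟩, h3⟩, h1, h5⟩
  have h2 : ∑ H ∈ BadIn S W, ∑ N ∈ Int ⊥ H, f N H =
      ∑ N ∈ BadIn S W, ∑ H ∈ (Int N W).filter (fun H => Bad S H), f N H := by
    apply Finset.sum_comm'
    intro H N
    simp only [mem_BadIn, mem_Int, Finset.mem_filter]
    constructor
    · rintro ⟨⟨h1, h2⟩, _, h3⟩
      exact ⟨⟨⟨h3, h1⟩, h2⟩, h3.trans h1, h2.mono h3⟩
    · rintro ⟨⟨⟨h1, h2⟩, h3⟩, h4, h5⟩
      exact ⟨⟨h2, h3⟩, bot_le, h1⟩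
  rw [h1, h2, ← Finset.sum_sub_distrib]
  apply Finset.sum_congr rfl
  intro N _
  rw [eq_sub_iff_add_eq, add_comm]
  exact Finset.sum_filter_add_sum_filter_not _ _ _

theorem main_swap (S : Set V) (W : Submodule K V) :
    ∑ H ∈ GoodIn S ⊥ W, ∑ N ∈ BadIn S H, Phi (Fintype.card K) (finrank K H - finrank K N) =
      ∑ N ∈ BadIn S W, (X ^ (finrank K W - finrank K N) - X ^ (finrank K N)) := by
  rw [sum_swap S W (fun N H => Phi (Fintype.card K) (finrank K H - finrank K N)),
    Finset.sum_sub_distrib]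
  congr 1
  · apply Finset.sum_congr rfl
    intro N hN
    rw [mem_BadIn] at hN
    exact sum_Phi_up hN.1
  · apply Finset.sum_congr rfl
    intro H _
    rw [sum_Phi_down bot_le]
    simp

theorem reflect_T {d k : ℕ} (hdk : d ≤ k) :
    reflect k (T d k) = T d k + (X ^ (k - d) - X ^ d) := by
  unfold T
  split_ifs with h1 h2
  · rw [reflect_monomial, revAt_le hdk]
    ring
  · have : (-X ^ (k - d) : ℤ[X]) = C (-1) * X ^ (k - d) := by simp
    rw [this, reflect_C_mul_X_pow, revAt_le (Nat.sub_le k d)]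
    have h3 : k - (k - d) = d := by omega
    rw [h3, C_neg, C_1]
    ring
  · have h3 : k - d = d := by omega
    rw [h3]
    simp

theorem reflect_sum' {ι : Type*} (s : Finset ι) (f : ι → ℤ[X]) (k : ℕ) :
    reflect k (∑ i ∈ s, f i) = ∑ i ∈ s, reflect k (f i) := by
  classical
  induction s using Finset.induction_on with
  | empty => simp
  | insert a s ha ih => rw [Finset.sum_insert ha, Finset.sum_insert ha, reflect_add, ih]

theorem reflect_Pol (S : Set V) (W : Submodule K V) :
    reflect (finrank K W) (Pol S W) = Pol S W +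
      ∑ H ∈ GoodIn S ⊥ W, ∑ N ∈ BadIn S H,
        Phi (Fintype.card K) (finrank K H - finrank K N) := by
  have hfd : FiniteDimensional K V := Module.Finite.of_finite
  rw [main_swap, Pol, reflect_sum', ← Finset.sum_add_distrib]
  apply Finset.sum_congr rfl
  intro N hN
  rw [mem_BadIn] at hN
  exact reflect_T (Submodule.finrank_mono hN.1)

theorem natDegree_T {d k : ℕ} (hk : 0 < k) (hdk : d ≤ k) : (T d k).natDegree ≤ (k - 1) / 2 := by
  unfold T
  split_ifs with h1 h2
  · rw [natDegree_X_pow]; omega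
  · rw [natDegree_neg, natDegree_X_pow]; omega
  · simp

theorem natDegree_Pol (S : Set V) (W : Submodule K V) (hW : 0 < finrank K W) :
    2 * (Pol S W).natDegree < finrank K W := by
  have hfd : FiniteDimensional K V := Module.Finite.of_finite
  have : (Pol S W).natDegree ≤ (finrank K W - 1) / 2 := by
    apply natDegree_sum_le_of_forall_le
    intro N hN
    rw [mem_BadIn] at hN
    exact natDegree_T hW (Submodule.finrank_mono hN.1)
  omega

theorem T_symm {d k : ℕ} (hdk : d ≤ k) : T (k - d) k = - T d k := by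
  rcases lt_trichotomy (2 * d) k with h | h | h
  · have h1 : ¬ 2 * (k - d) < k := by omega
    have h2 : k < 2 * (k - d) := by omega
    have h3 : k - (k - d) = d := by omega
    rw [T, T, if_neg h1, if_pos h2, if_pos h, h3]
  · have h1 : ¬ 2 * (k - d) < k := by omega
    have h2 : ¬ k < 2 * (k - d) := by omega
    rw [T, T, if_neg h1, if_neg h2, if_neg (by omega), if_neg (by omega), neg_zero]
  · have h1 : 2 * (k - d) < k := by omega
    rw [T, T, if_pos h1, if_neg (by omega), if_pos h, neg_neg]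

/-- Antisymmetry makes the correction terms vanish. -/
theorem sum_T_Int (H : Submodule K V) : ∑ N ∈ Int ⊥ H, T (finrank K N) (finrank K H) = 0 := by
  have hfd : FiniteDimensional K V := Module.Finite.of_finite
  have h1 := sum_Int_dual (fun j => T j (finrank K H)) (bot_le : (⊥ : Submodule K V) ≤ H)
  simp only [finrank_bot, Nat.sub_zero] at h1
  have h2 : ∑ N ∈ Int ⊥ H, T (finrank K H - finrank K N) (finrank K H) =
      - ∑ N ∈ Int ⊥ H, T (finrank K N) (finrank K H) := by
    rw [← Finset.sum_neg_distrib]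
    apply Finset.sum_congr rfl
    intro N hN
    rw [mem_Int] at hN
    exact T_symm (Submodule.finrank_mono hN.2)
  rw [h2] at h1
  have h4 : (2 : ℤ[X]) * ∑ N ∈ Int ⊥ H, T (finrank K N) (finrank K H) = 0 := by
    rw [two_mul]
    nth_rewrite 1 [h1]
    ring
  rcases mul_eq_zero.mp h4 with h5 | h5
  · exfalso
    have := congrArg (eval 0) h5
    simp at this
  · exact h5

end Pool.Agent.Helper27.KL
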