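import Pool.Agent.Helper27.KLCoeff

/-!
The concrete bad set in `(ZMod 7)^7`.
-/

set_option autoImplicit false
set_option linter.unusedSectionVars false

open Polynomial Module

namespace Pool.Agent.Helper27.KL

instance : Fact (Nat.Prime 7) := ⟨by norm_num⟩

abbrev F7 := ZMod 7
abbrev V7 := Fin 7 → ZMod 7

/-- The bad set. -/
def SS : Set V7 := {v | (v 0 = 0 ∧ v 1 = 0 ∧ v 2 = 0 ∧ v 3 = 0) ∨
  (v 0 ≠ 0 ∧ v 3 ^ 2 + v 4 ^ 2 = v 0 * v 6 ∧
    (v 1 ^ 2 + v 2 ^ 2 = v 0 * v 5 ∨ v 1 ^ 2 + v 2 ^ 2 + v 0 ^ 2 = v 0 * v 5))}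

theorem fact1 : ∀ α β γ : ZMod 7, (∀ c : ZMod 7, α + β * c + γ * c ^ 2 = 0) →
    α = 0 ∧ β = 0 ∧ γ = 0 := by decide +kernel

theorem fact1' : ∀ α β γ : ZMod 7, (∀ c : ZMod 7, c ≠ 0 → α + β * c + γ * c ^ 2 = 0) →
    α = 0 ∧ β = 0 ∧ γ = 0 := by decide +kernel

theorem fact2 : ∀ a b : ZMod 7, a ^ 2 + b ^ 2 = 0 → a = 0 ∧ b = 0 := by decide +kernel

theorem fact3 : ∀ α β γ δ : ZMod 7, (∀ c : ZMod 7, α + β * c + γ * c ^ 2 = 0 ∨
    α + β * c + γ * c ^ 2 + δ = 0) → β = 0 ∧ γ = 0 := by decide +kernel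

theorem fact4 : ∀ A B δ : ZMod 7, (∀ c : ZMod 7, c ≠ 0 → (c * A = B ∨ c * (A + δ) = B)) →
    A = 0 ∨ A + δ = 0 := by decide +kernel

theorem zero_mem_SS : (0 : V7) ∈ SS := by
  left
  simp

/-- Lemma A. -/
theorem lemA {z u : V7} (hz : z 0 ≠ 0) (hu : u 0 = 0) (h : ∀ c : ZMod 7, z + c • u ∈ SS) :
    u = 0 := by
  have h1 : ∀ c : ZMod 7, (z 3 + c * u 3) ^ 2 + (z 4 + c * u 4) ^ 2 = z 0 * (z 6 + c * u 6) ∧
    ((z 1 + c * u 1) ^ 2 + (z 2 + c * u 2) ^ 2 = z 0 * (z 5 + c * u 5) ∨
      (z 1 + c * u 1) ^ 2 + (z 2 + c * u 2) ^ 2 + (z 0) ^ 2 = z 0 * (z 5 + c * u 5)) := by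
    intro c
    rcases h c with h2 | h2
    · exfalso
      have := h2.1
      simp [hu] at this
      exact hz this
    · have h3 := h2.2
      simp only [Pi.add_apply, Pi.smul_apply, smul_eq_mul, hu, mul_zero, add_zero] at h3
      exact h3
  obtain ⟨_, h3, h4⟩ := fact1 (z 3 ^ 2 + z 4 ^ 2 - z 0 * z 6)
    (2 * z 3 * u 3 + 2 * z 4 * u 4 - z 0 * u 6) (u 3 ^ 2 + u 4 ^ 2) (by
      intro c
      linear_combination (h1 c).1)
  obtain ⟨h5, h6⟩ := fact2 _ _ h4
  have h7 : u 6 = 0 := by
    rw [h5, h6] at h3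
    have : z 0 * u 6 = 0 := by linear_combination -h3
    exact (mul_eq_zero.mp this).resolve_left hz
  obtain ⟨h8, h9⟩ := fact3 (z 1 ^ 2 + z 2 ^ 2 - z 0 * z 5)
    (2 * z 1 * u 1 + 2 * z 2 * u 2 - z 0 * u 5) (u 1 ^ 2 + u 2 ^ 2) (z 0 ^ 2) (by
      intro c
      rcases (h1 c).2 with h10 | h10
      · left
        linear_combination h10
      · right
        linear_combination h10)
  obtain ⟨h10, h11⟩ := fact2 _ _ h9
  have h12 : u 5 = 0 := by
    rw [h10, h11] at h8
    have : z 0 * u 5 = 0 := by linear_combination -h8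
    exact (mul_eq_zero.mp this).resolve_left hz
  funext i
  fin_cases i
  · exact hu
  · exact h10
  · exact h11
  · exact h5
  · exact h6
  · exact h12
  · exact h7

/-- Lemma B, after shifting. -/
theorem lemB0 {y w : V7} (hy : y 0 = 0) (hw : w 0 ≠ 0) (h : ∀ c : ZMod 7, y + c • w ∈ SS) :
    w ∈ SS := by
  have hy0 : y 1 = 0 ∧ y 2 = 0 ∧ y 3 = 0 := by
    rcases h 0 with h2 | h2
    · simpa using h2.2
    · exfalso
      apply h2.1
      simp [hy]
  obtain ⟨hy1, hy2, hy3⟩ := hy0
  have h1 : ∀ c : ZMod 7, c ≠ 0 →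
    (c * w 3) ^ 2 + (y 4 + c * w 4) ^ 2 = c * w 0 * (y 6 + c * w 6) ∧
    ((c * w 1) ^ 2 + (c * w 2) ^ 2 = c * w 0 * (y 5 + c * w 5) ∨
      (c * w 1) ^ 2 + (c * w 2) ^ 2 + (c * w 0) ^ 2 = c * w 0 * (y 5 + c * w 5)) := by
    intro c hc
    rcases h c with h2 | h2
    · exfalso
      have := h2.1
      simp [hy] at this
      rcases this with h3 | h3
      · exact hc h3
      · exact hw h3
    · have h3 := h2.2
      simp only [Pi.add_apply, Pi.smul_apply, smul_eq_mul, hy, hy1, hy2, hy3, zero_add] at h3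
      exact h3
  obtain ⟨_, _, h4⟩ := fact1' (y 4 ^ 2) (2 * y 4 * w 4 - w 0 * y 6)
    (w 3 ^ 2 + w 4 ^ 2 - w 0 * w 6) (by
      intro c hc
      linear_combination (h1 c hc).1)
  have h5 := fact4 (w 1 ^ 2 + w 2 ^ 2 - w 0 * w 5) (w 0 * y 5) (w 0 ^ 2) (by
      intro c hc
      rcases (h1 c hc).2 with h10 | h10
      · left
        apply mul_left_cancel₀ hc
        linear_combination h10
      · right
        apply mul_left_cancel₀ hc
        linear_combination h10)
  right
  refine ⟨hw, by linear_combination h4, ?_⟩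
  rcases h5 with h5 | h5
  · left; linear_combination h5
  · right; linear_combination h5

/-- The line condition. -/
theorem line {w : V7} (hw : w ∉ SS) (y : V7) : ∃ c : ZMod 7, y + c • w ∉ SS := by
  by_contra hcon
  push Not at hcon
  apply hw
  by_cases hw0 : w 0 = 0
  · by_cases hy0 : y 0 = 0
    · left
      have h0 := hcon 0
      have h1 := hcon 1
      rcases h0 with h0 | h0
      · rcases h1 with h1 | h1
        · simp only [Pi.add_apply, Pi.smul_apply, smul_eq_mul, zero_mul, add_zero, one_mul] at h0 h1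
          obtain ⟨a0, a1, a2, a3⟩ := h0
          obtain ⟨b0, b1, b2, b3⟩ := h1
          rw [a0, zero_add] at b0
          rw [a1, zero_add] at b1
          rw [a2, zero_add] at b2
          rw [a3, zero_add] at b3
          exact ⟨b0, b1, b2, b3⟩
        · exfalso
          apply h1.1
          simp [hw0, hy0]
      · exfalso
        apply h0.1
        simp [hy0]
    · have := lemA hy0 hw0 hcon
      rw [this]
      exact zero_mem_SS
  · apply lemB0 (y := y + (-(y 0) / w 0) • w) _ hw0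
    · intro c
      have := hcon (-(y 0) / w 0 + c)
      rw [add_smul, ← add_assoc] at this
      exact this
    · simp only [Pi.add_apply, Pi.smul_apply, smul_eq_mul]
      field_simp
      ring

theorem hspan7 (W : Submodule F7 V7) (hW : ¬ Bad SS W) :
    Submodule.span F7 ((W : Set V7) \ SS) = W := by
  apply le_antisymm
  · rw [Submodule.span_le]
    exact Set.sdiff_subset
  · obtain ⟨w, hwW, hwS⟩ := Set.not_subset.mp hW
    intro y hy
    obtain ⟨c, hc⟩ := line hwS y
    have h1 : y + c • w ∈ Submodule.span F7 ((W : Set V7) \ SS) :=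
      Submodule.subset_span ⟨W.add_mem hy (W.smul_mem c hwW), hc⟩
    have h2 : w ∈ Submodule.span F7 ((W : Set V7) \ SS) :=
      Submodule.subset_span ⟨hwW, hwS⟩
    have h3 := Submodule.sub_mem _ h1 (Submodule.smul_mem _ c h2)
    simpa using h3

/-- The plane contained in the bad set. -/
def TT : Submodule F7 V7 where
  carrier := {v | v 0 = 0 ∧ v 1 = 0 ∧ v 2 = 0 ∧ v 3 = 0}
  add_mem' := by
    rintro a b ⟨a0, a1, a2, a3⟩ ⟨b0, b1, b2, b3⟩
    simp only [Set.mem_ofPred_eq, Pi.add_apply]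
    rw [a0, a1, a2, a3, b0, b1, b2, b3]
    simp
  zero_mem' := by simp
  smul_mem' := by
    rintro c a ⟨a0, a1, a2, a3⟩
    simp only [Set.mem_ofPred_eq, Pi.smul_apply, smul_eq_mul]
    rw [a0, a1, a2, a3]
    simp

theorem mem_TT {v : V7} : v ∈ TT ↔ v 0 = 0 ∧ v 1 = 0 ∧ v 2 = 0 ∧ v 3 = 0 := Iff.rfl

theorem finrank_TT : finrank F7 TT = 3 := by
  let e : TT ≃ₗ[F7] (Fin 3 → F7) :=
    { toFun := fun v => ![v.1 4, v.1 5, v.1 6]
      map_add' := by
        intro a b
        funext i
        fin_cases i <;> simp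
      map_smul' := by
        intro c a
        funext i
        fin_cases i <;> simp
      invFun := fun x => ⟨![0, 0, 0, 0, x 0, x 1, x 2], by
        rw [mem_TT]
        simp⟩
      left_inv := by
        rintro ⟨v, hv⟩
        rw [mem_TT] at hv
        apply Subtype.ext
        funext i
        fin_cases i <;> simp [hv]
      right_inv := by
        intro x
        funext i
        fin_cases i <;> simp }
  rw [e.finrank_eq, finrank_fin_fun]

theorem bad_of_le_TT {N : Submodule F7 V7} (h : N ≤ TT) : Bad SS N := by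
  intro v hv
  left
  exact h hv

theorem le_TT_of_bad {N : Submodule F7 V7} (hN : Bad SS N) (h2 : 2 ≤ finrank F7 N) : N ≤ TT := by
  have h3 : ∀ z ∈ N, z 0 = 0 := by
    intro z hz
    by_contra hz0
    let f : N →ₗ[F7] F7 := (LinearMap.proj 0).comp N.subtype
    have h4 := LinearMap.finrank_range_add_finrank_ker f
    have h5 : finrank F7 (LinearMap.range f) ≤ 1 := by
      have := Submodule.finrank_le (LinearMap.range f)
      simpa using this
    have h6 : LinearMap.ker f ≠ ⊥ := by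
      intro h
      rw [h, finrank_bot] at h4
      omega
    obtain ⟨u, hu, hu0⟩ := Submodule.exists_mem_ne_zero_of_ne_bot h6
    apply hu0
    apply Subtype.ext
    have hu1 : (u : V7) 0 = 0 := hu
    exact lemA hz0 hu1 (fun c => hN (N.add_mem hz (N.smul_mem c u.2)))
  intro v hv
  rcases hN hv with h | h
  · exact h
  · exact absurd (h3 v hv) h.1

theorem finrank_le_of_bad (N : Submodule F7 V7) (hN : Bad SS N) : finrank F7 N ≤ 3 := by
  by_cases h : 2 ≤ finrank F7 N
  · rw [← finrank_TT]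
    exact Submodule.finrank_mono (le_TT_of_bad hN h)
  · omega

theorem W3 : Wn F7 SS 3 = 1 := by
  classical
  unfold Wn
  have : (BadIn SS (⊤ : Submodule F7 V7)).filter (fun N : Submodule F7 V7 => finrank F7 N = 3) =
      {TT} := by
    ext N
    rw [Finset.mem_filter, mem_BadIn, Finset.mem_singleton]
    constructor
    · rintro ⟨⟨_, h1⟩, h2⟩
      apply Submodule.eq_of_le_of_finrank_eq (le_TT_of_bad h1 (by omega))
      rw [h2, finrank_TT]
    · rintro rfl
      exact ⟨⟨le_top, bad_of_le_TT le_rfl⟩, finrank_TT⟩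
  have h2 := congrArg (fun s => (Finset.card s : ℤ)) this
  simp only [Finset.card_singleton, Nat.cast_one] at h2
  convert h2 using 1

theorem W2 : Wn F7 SS 2 = 57 := by
  classical
  have h1 : Wn F7 SS 2 = cnt (⊥ : Submodule F7 V7) TT 2 := by
    unfold Wn cnt
    congr 2
    ext N
    rw [Finset.mem_filter, mem_BadIn, Finset.mem_filter, mem_Int, finrank_bot]
    constructor
    · rintro ⟨⟨_, h1⟩, h2⟩
      exact ⟨⟨bot_le, le_TT_of_bad h1 (by omega)⟩, by omega⟩
    · rintro ⟨⟨_, h1⟩, h2⟩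
      exact ⟨⟨le_top, bad_of_le_TT h1⟩, by omega⟩
  have h2 := cnt_one (bot_le : (⊥ : Submodule F7 V7) ≤ TT)
  have h3 := cnt_two (bot_le : (⊥ : Submodule F7 V7) ≤ TT)
  rw [finrank_bot, finrank_TT, ZMod.card] at h2 h3
  norm_num at h2 h3
  rw [h1]
  omega

/-- The isolated bad points. -/
def pt (p : Fin 2 × (Fin 4 → F7)) : V7 :=
  ![1, p.2 0, p.2 1, p.2 2, p.2 3, p.2 0 ^ 2 + p.2 1 ^ 2 + (if p.1 = 0 then 0 else 1),
    p.2 2 ^ 2 + p.2 3 ^ 2]

theorem smul_mem_SS {v : V7} (hv : v ∈ SS) (c : F7) : c • v ∈ SS := by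
  by_cases hc : c = 0
  · rw [hc, zero_smul]
    exact zero_mem_SS
  · rcases hv with h | h
    · left
      simp [h]
    · right
      refine ⟨?_, ?_, ?_⟩
      · simp [hc, h.1]
      · simp only [Pi.smul_apply, smul_eq_mul]
        linear_combination c ^ 2 * h.2.1
      · rcases h.2.2 with h3 | h3
        · left
          simp only [Pi.smul_apply, smul_eq_mul]
          linear_combination c ^ 2 * h3
        · right
          simp only [Pi.smul_apply, smul_eq_mul]
          linear_combination c ^ 2 * h3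

theorem pt_mem (p : Fin 2 × (Fin 4 → F7)) : pt p ∈ SS := by
  right
  refine ⟨by simp [pt], by simp [pt], ?_⟩
  rcases p with ⟨e, x⟩
  fin_cases e
  · left
    simp [pt]
  · right
    simp [pt]

theorem pt_inj {p p' : Fin 2 × (Fin 4 → F7)} (h : pt p = pt p') : p = p' := by
  rcases p with ⟨e, x⟩
  rcases p' with ⟨e', x'⟩
  have h1 := congrFun h 1
  have h2 := congrFun h 2
  have h3 := congrFun h 3
  have h4 := congrFun h 4
  have h5 := congrFun h 5
  simp [pt] at h1 h2 h3 h4 h5
  have hx : x = x' := by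
    funext i
    fin_cases i
    · exact h1
    · exact h2
    · exact h3
    · exact h4
  subst hx
  congr 1
  fin_cases e <;> fin_cases e' <;> simp at h5 ⊢

theorem W1 : 4802 ≤ Wn F7 SS 1 := by
  classical
  unfold Wn
  have h1 : Fintype.card (Fin 2 × (Fin 4 → F7)) = 4802 := by
    simp [ZMod.card]
  have h2 : Fintype.card (Fin 2 × (Fin 4 → F7)) ≤
      ((BadIn SS (⊤ : Submodule F7 V7)).filter
        (fun N : Submodule F7 V7 => finrank F7 N = 1)).card := by
    rw [← Finset.card_univ]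
    apply Finset.card_le_card_of_injOn (fun p => Submodule.span F7 {pt p})
    · intro p _
      have hne : pt p ≠ 0 := by
        intro h
        have := congrFun h 0
        simp [pt] at this
      simp only [Finset.coe_filter, Set.mem_ofPred_eq, mem_BadIn]
      refine ⟨⟨le_top, ?_⟩, finrank_span_singleton hne⟩
      intro v hv
      obtain ⟨c, rfl⟩ := Submodule.mem_span_singleton.mp hv
      exact smul_mem_SS (pt_mem p) c
    · intro p _ p' _ h
      simp only at h
      have h3 : pt p ∈ Submodule.span F7 {pt p'} := by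
        rw [← h]
        exact Submodule.mem_span_singleton_self _
      obtain ⟨c, hc⟩ := Submodule.mem_span_singleton.mp h3
      have h4 := congrFun hc 0
      simp [pt] at h4
      rw [h4, one_smul] at hc
      exact (pt_inj hc).symm
  rw [h1] at h2
  exact_mod_cast h2

end Pool.Agent.Helper27.KL
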